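import Mathlib

set_option autoImplicit false

namespace Pool.Agent.Lib.MP_04276e_nt

open MeasureTheory Finset

noncomputable section

/-- distance to the nearest integer -/
def nn (x : ℝ) : ℝ := |x - round x|

lemma nn_le_abs (x : ℝ) (n : ℤ) : nn x ≤ |x - n| := round_le x n

lemma nn_nonneg (x : ℝ) : 0 ≤ nn x := abs_nonneg _

lemma nn_eq_norm (x : ℝ) : nn x = ‖(x : UnitAddCircle)‖ := UnitAddCircle.norm_eq.symm

lemma nn_le_iff (x ε : ℝ) : nn x ≤ ε ↔ ∃ n : ℤ, |x - n| ≤ ε :=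
  ⟨fun h => ⟨round x, h⟩, fun ⟨n, h⟩ => (nn_le_abs x n).trans h⟩

lemma nn_add_int (x : ℝ) (n : ℤ) : nn (x + n) = nn x := by
  unfold nn
  rw [round_add_intCast]
  push_cast
  congr 1
  ring

lemma nn_add_le (x y : ℝ) : nn (x + y) ≤ nn x + |y| := by
  rw [nn_le_iff]
  refine ⟨round x, ?_⟩
  unfold nn
  calc |x + y - round x| = |(x - round x) + y| := by ring_nf
    _ ≤ _ := abs_add_le _ _

lemma nn_mul_le (h : ℕ) (x : ℝ) (p : ℤ) : nn (h * x) ≤ |h * x - p| := nn_le_abs _ _

/-- integers in an interval -/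
lemma card_int_le (S : Finset ℤ) (w L : ℝ) (hL : 0 ≤ L) (h : ∀ v ∈ S, |(v : ℝ) + w| ≤ L) :
    (S.card : ℝ) ≤ 2 * L + 1 := by
  have hsub : S ⊆ Finset.Icc ⌈-w - L⌉ ⌊-w + L⌋ := by
    intro v hv
    have := abs_le.mp (h v hv)
    rw [Finset.mem_Icc]
    constructor
    · apply Int.ceil_le.mpr
      linarith [this.1]
    · apply Int.le_floor.mpr
      linarith [this.2]
  have hc := Finset.card_le_card hsub
  rw [Int.card_Icc] at hc
  have h1 : ((⌊-w + L⌋ + 1 - ⌈-w - L⌉).toNat : ℝ) ≤ 2 * L + 1 := by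
    rcases le_total 0 (⌊-w + L⌋ + 1 - ⌈-w - L⌉) with h0 | h0
    · have : (((⌊-w + L⌋ + 1 - ⌈-w - L⌉).toNat : ℤ) : ℝ) = ((⌊-w + L⌋ + 1 - ⌈-w - L⌉ : ℤ) : ℝ) := by
        rw [Int.toNat_of_nonneg h0]
      rw [← Int.cast_natCast, this]
      push_cast
      have h2 := Int.floor_le (-w + L)
      have h3 := Int.le_ceil (-w - L)
      linarith
    · rw [Int.toNat_eq_zero.mpr h0]
      push_cast
      linarith
  calc (S.card : ℝ) ≤ ((⌊-w + L⌋ + 1 - ⌈-w - L⌉).toNat : ℝ) := by exact_mod_cast hc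
    _ ≤ _ := h1

open scoped Classical in
/-- counting residues -/
lemma count_residue (N : ℕ) (p : ℤ) (hcop : IsCoprime p (N : ℤ)) (w L : ℝ)
    (hL : 0 ≤ L) :
    (((Finset.range N).filter (fun j : ℕ => ∃ n : ℤ, |(p : ℝ) * j + w - n * N| ≤ L)).card : ℝ)
      ≤ 2 * L + 1 := by
  set S := (Finset.range N).filter (fun j : ℕ => ∃ n : ℤ, |(p : ℝ) * j + w - n * N| ≤ L) with hS
  have hch : ∀ j : ℕ, ∃ n : ℤ, j ∈ S → |(p : ℝ) * j + w - n * N| ≤ L := by
    intro j
    by_cases hj : j ∈ S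
    · obtain ⟨n, hn⟩ := (Finset.mem_filter.mp hj).2
      exact ⟨n, fun _ => hn⟩
    · exact ⟨0, fun h => absurd h hj⟩
  choose n hn using hch
  let f : ℕ → ℤ := fun j => p * j - n j * N
  have hinj : Set.InjOn f S := by
    intro i hi j hj hij
    have hi' := Finset.mem_range.mp (Finset.mem_filter.mp hi).1
    have hj' := Finset.mem_range.mp (Finset.mem_filter.mp hj).1
    have h1 : (N : ℤ) ∣ p * ((i : ℤ) - j) := by
      refine ⟨n i - n j, ?_⟩
      have : p * (i : ℤ) - n i * N = p * j - n j * N := hij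
      linear_combination this
    have h2 : (N : ℤ) ∣ ((i : ℤ) - j) := (hcop.symm).dvd_of_dvd_mul_left h1
    have h3 : (i : ℤ) - j = 0 := by
      apply Int.eq_zero_of_abs_lt_dvd h2
      rw [abs_lt]
      constructor <;> omega
    omega
  have hcard : (S.image f).card = S.card := Finset.card_image_of_injOn hinj
  rw [← hcard]
  apply card_int_le _ w L hL
  intro v hv
  obtain ⟨j, hj, rfl⟩ := Finset.mem_image.mp hv
  have := hn j hj
  have h4 : ((f j : ℤ) : ℝ) + w = (p : ℝ) * j + w - n j * N := by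
    simp only [f]
    push_cast
    ring
  rw [h4]
  exact this

/-- overlap estimate, coprime case -/
lemma overlap_coprime (q r : ℕ) (hr : 0 < r) (hcop : Nat.Coprime q r) (x y ψ₁ ψ₂ : ℝ)
    (h1 : 0 ≤ ψ₁) (h2 : 0 ≤ ψ₂) :
    volume {t : UnitAddCircle | ‖q • t + (x : UnitAddCircle)‖ ≤ ψ₁ ∧
        ‖r • t + (y : UnitAddCircle)‖ ≤ ψ₂} ≤
      ENNReal.ofReal (if nn (r * x - q * y) ≤ r * ψ₁ + q * ψ₂ then
        (2 * ψ₂ / r) * (2 * (r * ψ₁ + q * ψ₂) + 1) else 0) := by
  classical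
  set D : ℝ := r * ψ₁ + q * ψ₂ with hD
  have hD0 : 0 ≤ D := by positivity
  set z : ℝ := r * x - q * y with hz
  set G := (Finset.range r).filter (fun j : ℕ => ∃ n : ℤ, |((q : ℤ) : ℝ) * j + z - n * r| ≤ D)
    with hG
  have hr' : (0 : ℝ) < r := by exact_mod_cast hr
  have hcover : {t : UnitAddCircle | ‖q • t + (x : UnitAddCircle)‖ ≤ ψ₁ ∧
        ‖r • t + (y : UnitAddCircle)‖ ≤ ψ₂} ⊆
      ⋃ j ∈ G, Metric.closedBall ((((j : ℝ) - y) / r : ℝ) : UnitAddCircle) (ψ₂ / r) := by
    rintro t ⟨ht1, ht2⟩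
    obtain ⟨s, rfl⟩ := QuotientAddGroup.mk_surjective t
    have e1 : q • (s : UnitAddCircle) + (x : UnitAddCircle) = ((q * s + x : ℝ) : UnitAddCircle) := by
      simp
    have e2 : r • (s : UnitAddCircle) + (y : UnitAddCircle) = ((r * s + y : ℝ) : UnitAddCircle) := by
      simp
    change ‖q • (s : UnitAddCircle) + (x : UnitAddCircle)‖ ≤ ψ₁ at ht1
    change ‖r • (s : UnitAddCircle) + (y : UnitAddCircle)‖ ≤ ψ₂ at ht2
    rw [e1, ← nn_eq_norm, nn_le_iff] at ht1
    rw [e2, ← nn_eq_norm, nn_le_iff] at ht2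
    obtain ⟨u, hu⟩ := ht1
    obtain ⟨v, hv⟩ := ht2
    have hrz : (r : ℤ) ≠ 0 := by exact_mod_cast hr.ne'
    set m : ℤ := v / r with hm
    set j : ℕ := (v % r).toNat with hj
    have hjv : (j : ℤ) = v % r := Int.toNat_of_nonneg (Int.emod_nonneg v hrz)
    have hjr : j < r := by
      have : (j : ℤ) < r := by rw [hjv]; exact Int.emod_lt_of_pos v (by exact_mod_cast hr)
      exact_mod_cast this
    have hvm : (v : ℝ) = j + r * m := by
      have : v = j + r * m := by
        rw [hjv, hm]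
        exact (Int.emod_add_mul_ediv v r).symm
      exact_mod_cast this
    rw [Set.mem_iUnion₂]
    refine ⟨j, ?_, ?_⟩
    · rw [hG, Finset.mem_filter, Finset.mem_range]
      refine ⟨hjr, u - q * m, ?_⟩
      have e3 : ((q : ℤ) : ℝ) * j + z - ((u - q * m : ℤ) : ℝ) * r
          = r * (q * s + x - u) - q * (r * s + y - v) := by
        rw [hz, hvm]
        push_cast
        ring
      rw [e3]
      calc |r * (q * s + x - u) - q * (r * s + y - v)|
          ≤ |r * (q * s + x - u)| + |q * (r * s + y - v)| := abs_sub _ _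
        _ = r * |q * s + x - u| + q * |r * s + y - v| := by
            rw [abs_mul, abs_mul, abs_of_nonneg hr'.le, abs_of_nonneg (Nat.cast_nonneg (α := ℝ) q)]
        _ ≤ r * ψ₁ + q * ψ₂ := by gcongr
    · rw [Metric.mem_closedBall, dist_eq_norm]
      have e4 : ((s : ℝ) : UnitAddCircle) = ((s - m : ℝ) : UnitAddCircle) := by
        rw [AddCircle.coe_sub]
        have : ((m : ℝ) : UnitAddCircle) = 0 := by
          rw [AddCircle.coe_eq_zero_iff]
          exact ⟨m, by simp⟩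
        rw [this, sub_zero]
      change ‖(s : UnitAddCircle) - _‖ ≤ _
      rw [e4, ← AddCircle.coe_sub, ← nn_eq_norm]
      refine (nn_le_abs _ 0).trans ?_
      have e5 : s - m - ((j : ℝ) - y) / r - ((0 : ℤ) : ℝ) = (r * s + y - v) / r := by
        rw [hvm]
        field_simp
        push_cast
        ring
      rw [e5, abs_div, abs_of_nonneg hr'.le]
      gcongr
  split_ifs with hif
  · refine (measure_mono hcover).trans ?_
    refine (measure_biUnion_finset_le _ _).trans ?_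
    have hGc : (G.card : ℝ) ≤ 2 * D + 1 :=
      count_residue r q (by exact_mod_cast Nat.isCoprime_iff_coprime.mpr hcop) z D hD0
    calc ∑ j ∈ G, volume (Metric.closedBall ((((j : ℝ) - y) / r : ℝ) : UnitAddCircle) (ψ₂ / r))
        ≤ ∑ j ∈ G, ENNReal.ofReal (2 * ψ₂ / r) := by
          apply Finset.sum_le_sum
          intro j _
          rw [AddCircle.volume_closedBall]
          apply ENNReal.ofReal_le_ofReal
          refine (min_le_right _ _).trans (le_of_eq ?_)
          ring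
      _ = ENNReal.ofReal ((2 * ψ₂ / r) * G.card) := by
          rw [Finset.sum_const, nsmul_eq_mul, mul_comm, ENNReal.ofReal_mul (by positivity),
            ENNReal.ofReal_natCast]
      _ ≤ _ := by
          apply ENNReal.ofReal_le_ofReal
          gcongr
  · have hempty : G = ∅ := by
      rw [Finset.eq_empty_iff_forall_notMem]
      intro j hj
      obtain ⟨n, hn⟩ := (Finset.mem_filter.mp hj).2
      apply hif
      rw [nn_le_iff]
      refine ⟨n * r - q * j, ?_⟩
      push_cast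
      convert hn using 2
      push_cast
      ring
    rw [hempty] at hcover
    have : volume {t : UnitAddCircle | ‖q • t + (x : UnitAddCircle)‖ ≤ ψ₁ ∧
        ‖r • t + (y : UnitAddCircle)‖ ≤ ψ₂} ≤ 0 := by
      refine (measure_mono hcover).trans ?_
      simp
    exact this.trans (by simp)

lemma measurePreserving_nsmul' (g : ℕ) (hg : 0 < g) :
    MeasurePreserving (fun t : UnitAddCircle => g • t) volume volume := by
  rcases Nat.lt_or_ge 1 g with h | h
  · exact (AddCircle.ergodic_nsmul (T := (1 : ℝ)) h).toMeasurePreserving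
  · have : g = 1 := by omega
    subst this
    convert MeasurePreserving.id (volume : Measure UnitAddCircle) using 1
    funext t
    simp

lemma volume_single (q : ℕ) (hq : 0 < q) (x ψ : ℝ) (hψ2 : ψ ≤ 1 / 2) :
    volume {t : UnitAddCircle | ‖q • t + (x : UnitAddCircle)‖ ≤ ψ} = ENNReal.ofReal (2 * ψ) := by
  have h1 : {t : UnitAddCircle | ‖q • t + (x : UnitAddCircle)‖ ≤ ψ}
      = (fun t : UnitAddCircle => q • t) ⁻¹' (Metric.closedBall (-(x : UnitAddCircle)) ψ) := by
    ext t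
    simp [Metric.mem_closedBall, dist_eq_norm]
  rw [h1, (measurePreserving_nsmul' q hq).measure_preimage measurableSet_closedBall.nullMeasurableSet,
    AddCircle.volume_closedBall, min_eq_right (by linarith)]

lemma measurableSet_single (q : ℕ) (x ψ : ℝ) :
    MeasurableSet {t : UnitAddCircle | ‖q • t + (x : UnitAddCircle)‖ ≤ ψ} := by
  apply IsClosed.measurableSet
  apply isClosed_le
  · fun_prop
  · exact continuous_const

/-- overlap estimate, general case -/
lemma overlap (q r : ℕ) (hq : 0 < q) (hr : 0 < r) (x y ψ₁ ψ₂ : ℝ) (h1 : 0 ≤ ψ₁) (h2 : 0 ≤ ψ₂) :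
    volume ({t : UnitAddCircle | ‖q • t + (x : UnitAddCircle)‖ ≤ ψ₁} ∩
        {t : UnitAddCircle | ‖r • t + (y : UnitAddCircle)‖ ≤ ψ₂}) ≤
      ENNReal.ofReal (if nn (((r / q.gcd r : ℕ) : ℝ) * x - ((q / q.gcd r : ℕ) : ℝ) * y) ≤
          ((r / q.gcd r : ℕ) : ℝ) * ψ₁ + ((q / q.gcd r : ℕ) : ℝ) * ψ₂ then
        (2 * ψ₂ / ((r / q.gcd r : ℕ) : ℝ)) *
          (2 * (((r / q.gcd r : ℕ) : ℝ) * ψ₁ + ((q / q.gcd r : ℕ) : ℝ) * ψ₂) + 1) else 0) := by
  set g := q.gcd r with hg
  have hg0 : 0 < g := Nat.gcd_pos_of_pos_left r hq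
  have hqg : g ∣ q := Nat.gcd_dvd_left q r
  have hrg : g ∣ r := Nat.gcd_dvd_right q r
  have hr0 : 0 < r / g := Nat.div_pos (Nat.le_of_dvd hr hrg) hg0
  have hc : Nat.Coprime (q / g) (r / g) := Nat.coprime_div_gcd_div_gcd hg0
  refine le_trans (le_of_eq ?_) (overlap_coprime (q / g) (r / g) hr0 hc x y ψ₁ ψ₂ h1 h2)
  have hm := measurePreserving_nsmul' g hg0
  have hset : MeasurableSet {t : UnitAddCircle | ‖(q / g) • t + (x : UnitAddCircle)‖ ≤ ψ₁ ∧
        ‖(r / g) • t + (y : UnitAddCircle)‖ ≤ ψ₂} :=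
    (measurableSet_single (q / g) x ψ₁).inter (measurableSet_single (r / g) y ψ₂)
  rw [← hm.measure_preimage hset.nullMeasurableSet]
  congr 1
  ext t
  simp only [Set.mem_inter_iff, Set.mem_ofPred_eq, Set.mem_preimage, smul_smul,
    Nat.div_mul_cancel hqg, Nat.div_mul_cancel hrg]

end

end Pool.Agent.Lib.MP_04276e_nt
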