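import Mathlib
import Pool.Agent.Lib.MP_04276e_nt.Circle

set_option autoImplicit false

namespace Pool.Agent.Lib.MP_04276e_nt

open MeasureTheory Finset

noncomputable section

open scoped Classical in
lemma count_block (h N : ℕ) (hh : 0 < h) (hN : h ≤ N) (p : ℤ) (hcop : IsCoprime p (h : ℤ)) (x θ η : ℝ)
    (hη : 0 ≤ η) (hx : |x - p / h| ≤ 1 / ((N + 1) * h)) (A : ℕ) :
    (((Finset.Ico A (A + h)).filter (fun r : ℕ => nn (r * x - θ) ≤ η)).card : ℝ)
      ≤ 2 * h * η + 3 := by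
  have hh' : (0 : ℝ) < h := by exact_mod_cast hh
  have hL : (0 : ℝ) ≤ h * η + 1 := by positivity
  have key := count_residue h p hcop (h * (A * x - θ)) (h * η + 1) hL
  have hle : ((Finset.Ico A (A + h)).filter (fun r : ℕ => nn (r * x - θ) ≤ η)).card ≤
      ((Finset.range h).filter (fun j : ℕ => ∃ n : ℤ,
        |(p : ℝ) * j + (h * (A * x - θ)) - n * h| ≤ h * η + 1)).card := by
    apply Finset.card_le_card_of_injOn (fun r => r - A)
    · intro r hr
      have hr' := Finset.mem_filter.mp hr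
      have hrI := Finset.mem_Ico.mp hr'.1
      obtain ⟨n, hn⟩ := (nn_le_iff _ _).mp hr'.2
      simp only [Finset.coe_filter, Set.mem_ofPred_eq, Finset.mem_range]
      refine ⟨by omega, n, ?_⟩
      have hj : ((r - A : ℕ) : ℝ) = r - A := by
        rw [Nat.cast_sub hrI.1]
      have hj0 : (0 : ℝ) ≤ ((r - A : ℕ) : ℝ) := Nat.cast_nonneg _
      have hjh : ((r - A : ℕ) : ℝ) ≤ h := by
        have : r - A ≤ h := by omega
        exact_mod_cast this
      have e1 : (p : ℝ) * ((r - A : ℕ) : ℝ) + (h * (A * x - θ)) - n * h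
          = h * (r * x - θ - n) - ((r - A : ℕ) : ℝ) * (h * (x - p / h)) := by
        rw [hj]
        field_simp
        ring
      rw [e1]
      have e2 : |h * (x - p / h)| ≤ 1 / (N + 1) := by
        rw [abs_mul, abs_of_pos hh']
        calc (h : ℝ) * |x - p / h| ≤ h * (1 / ((N + 1) * h)) := by gcongr
          _ = 1 / (N + 1) := by field_simp
      have hNr : (h : ℝ) ≤ N := by exact_mod_cast hN
      calc |h * (r * x - θ - n) - ((r - A : ℕ) : ℝ) * (h * (x - p / h))|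
          ≤ |h * (r * x - θ - n)| + |((r - A : ℕ) : ℝ) * (h * (x - p / h))| := abs_sub _ _
        _ = h * |r * x - θ - n| + ((r - A : ℕ) : ℝ) * |h * (x - p / h)| := by
            rw [abs_mul, abs_mul, abs_of_pos hh', abs_of_nonneg hj0]
        _ ≤ h * η + h * (1 / (N + 1)) := by gcongr
        _ ≤ h * η + 1 := by
            have : (h : ℝ) * (1 / (N + 1)) ≤ 1 := by
              rw [mul_one_div, div_le_one (by positivity)]
              linarith
            linarith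
    · intro a ha b hb hab
      have ha' := Finset.mem_Ico.mp (Finset.mem_filter.mp ha).1
      have hb' := Finset.mem_Ico.mp (Finset.mem_filter.mp hb).1
      simp only at hab
      omega
  calc _ ≤ (((Finset.range h).filter (fun j : ℕ => ∃ n : ℤ,
        |(p : ℝ) * j + (h * (A * x - θ)) - n * h| ≤ h * η + 1)).card : ℝ) := by exact_mod_cast hle
    _ ≤ _ := by linarith

open scoped Classical in
lemma count_interval (h N : ℕ) (hh : 0 < h) (hN : h ≤ N) (p : ℤ) (hcop : IsCoprime p (h : ℤ))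
    (x θ η : ℝ) (hη : 0 ≤ η) (hx : |x - p / h| ≤ 1 / ((N + 1) * h)) (A A' : ℕ) (hA : A ≤ A') :
    (((Finset.Ico A A').filter (fun r : ℕ => nn (r * x - θ) ≤ η)).card : ℝ)
      ≤ (((A' : ℝ) - A) / h + 1) * (2 * h * η + 3) := by
  have hh' : (0 : ℝ) < h := by exact_mod_cast hh
  set U : ℕ := (A' - A) / h + 1 with hU
  have hsub : (Finset.Ico A A').filter (fun r : ℕ => nn (r * x - θ) ≤ η) ⊆
      (Finset.range U).biUnion (fun u =>
        (Finset.Ico (A + u * h) (A + u * h + h)).filter (fun r : ℕ => nn (r * x - θ) ≤ η)) := by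
    intro r hr
    have hr' := Finset.mem_filter.mp hr
    have hrI := Finset.mem_Ico.mp hr'.1
    rw [Finset.mem_biUnion]
    refine ⟨(r - A) / h, ?_, ?_⟩
    · rw [Finset.mem_range, hU, Nat.lt_add_one_iff]
      apply Nat.div_le_div_right
      omega
    · rw [Finset.mem_filter, Finset.mem_Ico]
      refine ⟨⟨?_, ?_⟩, hr'.2⟩
      · have := Nat.div_mul_le_self (r - A) h
        omega
      · have := Nat.lt_div_mul_add (a := r - A) hh
        omega
  have h1 : (((Finset.Ico A A').filter (fun r : ℕ => nn (r * x - θ) ≤ η)).card : ℝ) ≤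
      ∑ u ∈ Finset.range U, (((Finset.Ico (A + u * h) (A + u * h + h)).filter
        (fun r : ℕ => nn (r * x - θ) ≤ η)).card : ℝ) := by
    have := (Finset.card_le_card hsub).trans Finset.card_biUnion_le
    exact_mod_cast this
  have h2 : (U : ℝ) ≤ ((A' : ℝ) - A) / h + 1 := by
    rw [hU]
    push_cast
    have : (((A' - A) / h : ℕ) : ℝ) ≤ ((A' - A : ℕ) : ℝ) / h := Nat.cast_div_le
    rw [Nat.cast_sub hA] at this
    linarith
  calc _ ≤ _ := h1
    _ ≤ ∑ u ∈ Finset.range U, (2 * h * η + 3) := by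
        apply Finset.sum_le_sum
        intro u _
        exact count_block h N hh hN p hcop x θ η hη hx _
    _ = U * (2 * h * η + 3) := by rw [Finset.sum_const, Finset.card_range, nsmul_eq_mul]
    _ ≤ _ := by gcongr

open scoped Classical in
/-- count of `r'` with `g r'` in a dyadic block -/
lemma count_dyadic (h N : ℕ) (hh : 0 < h) (hN : h ≤ N) (p : ℤ) (hcop : IsCoprime p (h : ℤ))
    (x θ η : ℝ) (hη : 0 ≤ η) (hx : |x - p / h| ≤ 1 / ((N + 1) * h)) (X : ℝ) (hX : (N : ℝ) ≤ X) :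
    (((Finset.Ico ⌈X⌉₊ ⌈2 * X⌉₊).filter (fun r : ℕ => nn (r * x - θ) ≤ η)).card : ℝ)
      ≤ 6 * X * η + 9 * X / h := by
  have hh' : (0 : ℝ) < h := by exact_mod_cast hh
  have hh1 : (1 : ℝ) ≤ h := by exact_mod_cast hh
  have hNr : (h : ℝ) ≤ N := by exact_mod_cast hN
  have hX0 : 0 < X := by linarith
  have hle : ⌈X⌉₊ ≤ ⌈2 * X⌉₊ := Nat.ceil_mono (by linarith)
  refine (count_interval h N hh hN p hcop x θ η hη hx _ _ hle).trans ?_
  have h1 : (⌈2 * X⌉₊ : ℝ) < 2 * X + 1 := Nat.ceil_lt_add_one (by linarith)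
  have h2 : X ≤ (⌈X⌉₊ : ℝ) := Nat.le_ceil X
  have h3 : ((⌈2 * X⌉₊ : ℝ) - ⌈X⌉₊) / h + 1 ≤ 3 * X / h := by
    rw [div_add_one hh'.ne', div_le_div_iff_of_pos_right hh']
    linarith
  calc _ ≤ (3 * X / h) * (2 * h * η + 3) := by gcongr
    _ = 6 * X * η + 9 * X / h := by field_simp; ring

/-- number of multiples in a dyadic block -/
lemma card_mult (Q g : ℕ) (hg : 0 < g) :
    (((Finset.Ico Q (2 * Q)).filter (fun q => g ∣ q)).card : ℝ) ≤ Q / g + 1 := by
  have hg' : (0 : ℝ) < g := by exact_mod_cast hg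
  have hle : ((Finset.Ico Q (2 * Q)).filter (fun q => g ∣ q)).card ≤
      (Finset.Ico ⌈(Q : ℝ) / g⌉₊ ⌈2 * ((Q : ℝ) / g)⌉₊).card := by
    apply Finset.card_le_card_of_injOn (fun r => r / g)
    · intro r hr
      have hr' := Finset.mem_filter.mp hr
      have hrI := Finset.mem_Ico.mp hr'.1
      obtain ⟨u, rfl⟩ := hr'.2
      simp only [Finset.coe_Ico, Set.mem_Ico]
      rw [Nat.mul_div_cancel_left u hg]
      constructor
      · rw [Nat.ceil_le, div_le_iff₀ hg']
        have : (Q : ℝ) ≤ ((g * u : ℕ) : ℝ) := by exact_mod_cast hrI.1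
        push_cast at this
        linarith
      · rw [Nat.lt_ceil, ← mul_div_assoc, lt_div_iff₀ hg']
        have : ((g * u : ℕ) : ℝ) < ((2 * Q : ℕ) : ℝ) := by exact_mod_cast hrI.2
        push_cast at this
        linarith
    · intro a ha b hb hab
      have ha' := (Finset.mem_filter.mp ha).2
      have hb' := (Finset.mem_filter.mp hb).2
      simp only at hab
      rw [← Nat.div_mul_cancel ha', ← Nat.div_mul_cancel hb', hab]
  have hX0 : (0 : ℝ) ≤ (Q : ℝ) / g := by positivity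
  have h1 : (⌈2 * ((Q : ℝ) / g)⌉₊ : ℝ) < 2 * ((Q : ℝ) / g) + 1 := Nat.ceil_lt_add_one (by linarith)
  have h2 : (Q : ℝ) / g ≤ (⌈(Q : ℝ) / g⌉₊ : ℝ) := Nat.le_ceil _
  have h3 : ⌈(Q : ℝ) / g⌉₊ ≤ ⌈2 * ((Q : ℝ) / g)⌉₊ := Nat.ceil_mono (by linarith)
  calc (((Finset.Ico Q (2 * Q)).filter (fun q => g ∣ q)).card : ℝ)
      ≤ ((Finset.Ico ⌈(Q : ℝ) / g⌉₊ ⌈2 * ((Q : ℝ) / g)⌉₊).card : ℝ) := by exact_mod_cast hle
    _ = (⌈2 * ((Q : ℝ) / g)⌉₊ : ℝ) - ⌈(Q : ℝ) / g⌉₊ := by
        rw [Nat.card_Ico, Nat.cast_sub h3]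
    _ ≤ _ := by linarith

lemma card_mult' (Q g : ℕ) (hg : 0 < g) (hgQ : g ≤ 2 * Q) :
    (((Finset.Ico Q (2 * Q)).filter (fun q => g ∣ q)).card : ℝ) ≤ 3 * Q / g := by
  have hg' : (0 : ℝ) < g := by exact_mod_cast hg
  refine (card_mult Q g hg).trans ?_
  have : (g : ℝ) ≤ 2 * Q := by exact_mod_cast hgQ
  rw [div_add_one hg'.ne', div_le_div_iff_of_pos_right hg']
  linarith

lemma sum_inv_sq_le (N : ℕ) : ∑ g ∈ Finset.Icc 1 N, (1 : ℝ) / ((g : ℝ) ^ 2) ≤ 2 := by
  have h : ∀ N : ℕ, ∑ g ∈ Finset.Icc 1 (N + 1), (1 : ℝ) / ((g : ℝ) ^ 2) ≤ 2 - 1 / ((N : ℝ) + 1) := by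
    intro N
    induction N with
    | zero => simp; norm_num
    | succ n ih =>
      rw [Finset.sum_Icc_succ_top (by omega)]
      push_cast
      have h1 : (1 : ℝ) / ((n : ℝ) + 1 + 1) ^ 2 ≤ 1 / ((n : ℝ) + 1) - 1 / ((n : ℝ) + 1 + 1) := by
        rw [div_sub_div _ _ (by positivity) (by positivity), div_le_div_iff₀ (by positivity) (by positivity)]
        nlinarith [Nat.cast_nonneg (α := ℝ) n]
      linarith
  rcases N with _ | N
  · simp
  · refine (h N).trans ?_
    have : (0 : ℝ) ≤ 1 / ((N : ℝ) + 1) := by positivity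
    linarith

/-- sum over q in a block of sum over divisors -/
lemma sum_divisors_block (Q : ℕ) (F : ℕ → ℝ) (hF : ∀ g, 0 ≤ F g) :
    ∑ q ∈ Finset.Ico Q (2 * Q), ∑ g ∈ q.divisors, F g ≤
      ∑ g ∈ Finset.Icc 1 (2 * Q), (3 * Q / g) * F g := by
  have h1 : ∀ q ∈ Finset.Ico Q (2 * Q), ∑ g ∈ q.divisors, F g ≤
      ∑ g ∈ Finset.Icc 1 (2 * Q), if g ∣ q then F g else 0 := by
    intro q hq
    have hq' := Finset.mem_Ico.mp hq
    rw [← Finset.sum_filter]
    apply Finset.sum_le_sum_of_subset_of_nonneg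
    · intro g hg
      rw [Nat.mem_divisors] at hg
      rw [Finset.mem_filter, Finset.mem_Icc]
      have h1 : 0 < g := Nat.pos_of_dvd_of_pos hg.1 (Nat.pos_of_ne_zero hg.2)
      have h2 : g ≤ q := Nat.le_of_dvd (Nat.pos_of_ne_zero hg.2) hg.1
      exact ⟨⟨h1, by omega⟩, hg.1⟩
    · intro g _ _
      exact hF g
  refine (Finset.sum_le_sum h1).trans ?_
  rw [Finset.sum_comm]
  apply Finset.sum_le_sum
  intro g hg
  have hg' := Finset.mem_Icc.mp hg
  rw [← Finset.sum_filter, Finset.sum_const, nsmul_eq_mul]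
  apply mul_le_mul_of_nonneg_right _ (hF g)
  exact card_mult' Q g hg'.1 hg'.2

end

end Pool.Agent.Lib.MP_04276e_nt
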