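import Mathlib
import Pool.Agent.Lib.MP_04276e_nt.Count

set_option autoImplicit false

namespace Pool.Agent.Lib.MP_04276e_nt

open MeasureTheory Finset

noncomputable section

open scoped Classical in
lemma sum_r_bound (q Q' h N : ℕ) (hq : 0 < q) (hQ' : 0 < Q') (hh : 0 < h) (hN : h ≤ N) (p : ℤ)
    (hcop : IsCoprime p (h : ℤ)) (x y ψ₁ ψ₂ : ℝ) (hψ₁ : 0 ≤ ψ₁) (hψ₂ : 0 ≤ ψ₂)
    (hx : |x - p / h| ≤ 1 / ((N + 1) * h)) (bad : ℕ → Prop)
    (hbad : ∀ r ∈ Finset.Ico Q' (2 * Q'), bad r → N * q.gcd r ≤ Q' ∧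
      nn (((r / q.gcd r : ℕ) : ℝ) * x - ((q / q.gcd r : ℕ) : ℝ) * y)
        ≤ 3 * (((r / q.gcd r : ℕ) : ℝ) * ψ₁)) :
    ∑ r ∈ Finset.Ico Q' (2 * Q'), (if bad r then ψ₂ / ((r / q.gcd r : ℕ) : ℝ) else 0) ≤
      ∑ g ∈ q.divisors, (36 * Q' * ψ₁ * ψ₂ / g + 9 * ψ₂ / h) := by
  have hh' : (0 : ℝ) < h := by exact_mod_cast hh
  have hQr : (0 : ℝ) < Q' := by exact_mod_cast hQ'
  have hmap : ∀ r ∈ Finset.Ico Q' (2 * Q'), q.gcd r ∈ q.divisors := by
    intro r _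
    rw [Nat.mem_divisors]
    exact ⟨Nat.gcd_dvd_left q r, hq.ne'⟩
  rw [← Finset.sum_fiberwise_of_maps_to hmap]
  apply Finset.sum_le_sum
  intro g hg
  have hg0 : 0 < g := Nat.pos_of_mem_divisors hg
  have hg' : (0 : ℝ) < g := by exact_mod_cast hg0
  set S := (Finset.Ico Q' (2 * Q')).filter (fun r => q.gcd r = g) with hS
  rw [← Finset.sum_filter]
  set S' := S.filter bad with hS'
  rcases S'.eq_empty_or_nonempty with he | hne
  · rw [he, Finset.sum_empty]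
    positivity
  · obtain ⟨r0, hr0⟩ := hne
    have hr0S := Finset.mem_filter.mp hr0
    have hr0I := Finset.mem_filter.mp hr0S.1
    have hNg : N * g ≤ Q' := by
      have := (hbad r0 hr0I.1 hr0S.2).1
      rwa [hr0I.2] at this
    set X : ℝ := (Q' : ℝ) / g with hX
    have hXpos : 0 < X := by positivity
    have hXN : (N : ℝ) ≤ X := by
      rw [hX, le_div_iff₀ hg']
      exact_mod_cast hNg
    have hcard : S'.card ≤ ((Finset.Ico ⌈X⌉₊ ⌈2 * X⌉₊).filter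
        (fun r : ℕ => nn (r * x - ((q / g : ℕ) : ℝ) * y) ≤ 6 * X * ψ₁)).card := by
      apply Finset.card_le_card_of_injOn (fun r => r / g)
      · intro r hr
        have hrS := Finset.mem_filter.mp hr
        have hrI := Finset.mem_filter.mp hrS.1
        have hrII := Finset.mem_Ico.mp hrI.1
        have hgr : g ∣ r := by rw [← hrI.2]; exact Nat.gcd_dvd_right q r
        have hb := (hbad r hrI.1 hrS.2).2
        rw [hrI.2] at hb
        obtain ⟨u, rfl⟩ := hgr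
        rw [Nat.mul_div_cancel_left u hg0] at hb
        simp only [Finset.coe_filter, Set.mem_ofPred_eq, Finset.mem_Ico]
        rw [Nat.mul_div_cancel_left u hg0]
        have hu1 : X ≤ u := by
          rw [hX, div_le_iff₀ hg']
          have : (Q' : ℝ) ≤ ((g * u : ℕ) : ℝ) := by exact_mod_cast hrII.1
          push_cast at this
          linarith
        have hu2 : (u : ℝ) < 2 * X := by
          rw [hX, ← mul_div_assoc, lt_div_iff₀ hg']
          have : ((g * u : ℕ) : ℝ) < ((2 * Q' : ℕ) : ℝ) := by exact_mod_cast hrII.2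
          push_cast at this
          linarith
        refine ⟨⟨Nat.ceil_le.mpr hu1, Nat.lt_ceil.mpr hu2⟩, hb.trans ?_⟩
        nlinarith
      · intro a ha b hb hab
        have ha' := Finset.mem_filter.mp (Finset.mem_filter.mp ha).1
        have hb' := Finset.mem_filter.mp (Finset.mem_filter.mp hb).1
        have hga : g ∣ a := by rw [← ha'.2]; exact Nat.gcd_dvd_right q a
        have hgb : g ∣ b := by rw [← hb'.2]; exact Nat.gcd_dvd_right q b
        simp only at hab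
        rw [← Nat.div_mul_cancel hga, ← Nat.div_mul_cancel hgb, hab]
    have hcount := count_dyadic h N hh hN p hcop x (((q / g : ℕ) : ℝ) * y) (6 * X * ψ₁)
      (by positivity) hx X hXN
    have hterm : ∀ r ∈ S', ψ₂ / ((r / q.gcd r : ℕ) : ℝ) ≤ ψ₂ / X := by
      intro r hr
      have hrS := Finset.mem_filter.mp hr
      have hrI := Finset.mem_filter.mp hrS.1
      have hrII := Finset.mem_Ico.mp hrI.1
      have hgr : g ∣ r := by rw [← hrI.2]; exact Nat.gcd_dvd_right q r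
      rw [hrI.2, Nat.cast_div hgr hg'.ne']
      apply div_le_div_of_nonneg_left hψ₂ hXpos
      rw [hX]
      apply div_le_div_of_nonneg_right _ hg'.le
      exact_mod_cast hrII.1
    calc ∑ r ∈ S', ψ₂ / ((r / q.gcd r : ℕ) : ℝ) ≤ ∑ _r ∈ S', ψ₂ / X := Finset.sum_le_sum hterm
      _ = S'.card * (ψ₂ / X) := by rw [Finset.sum_const, nsmul_eq_mul]
      _ ≤ (6 * X * (6 * X * ψ₁) + 9 * X / h) * (ψ₂ / X) := by
          apply mul_le_mul_of_nonneg_right _ (by positivity)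
          refine le_trans ?_ hcount
          exact_mod_cast hcard
      _ = 36 * X * ψ₁ * ψ₂ + 9 * ψ₂ / h := by
          field_simp
          ring
      _ = 36 * Q' * ψ₁ * ψ₂ / g + 9 * ψ₂ / h := by
          rw [hX]
          ring

lemma sum_inv_le_log (n : ℕ) : ∑ g ∈ Finset.Icc 1 n, (1 : ℝ) / g ≤ 1 + Real.log n := by
  have := harmonic_le_one_add_log n
  rw [harmonic_eq_sum_Icc] at this
  push_cast at this
  simpa [one_div] using this

lemma log_le_sum_inv (n : ℕ) : Real.log (n + 1) ≤ ∑ g ∈ Finset.Icc 1 n, (1 : ℝ) / g := by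
  have := log_add_one_le_harmonic n
  rw [harmonic_eq_sum_Icc] at this
  push_cast at this
  simpa [one_div] using this

open scoped Classical in
lemma sum_qr_bound (Q Q' h N : ℕ) (hQ : 0 < Q) (hQ' : 0 < Q') (hh : 0 < h) (hN : h ≤ N) (p : ℤ)
    (hcop : IsCoprime p (h : ℤ)) (x y ψ₁ ψ₂ : ℝ) (hψ₁ : 0 ≤ ψ₁) (hψ₂ : 0 ≤ ψ₂)
    (hx : |x - p / h| ≤ 1 / ((N + 1) * h)) (bad : ℕ → ℕ → Prop)
    (hbad : ∀ q ∈ Finset.Ico Q (2 * Q), ∀ r ∈ Finset.Ico Q' (2 * Q'), bad q r → N * q.gcd r ≤ Q' ∧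
      nn (((r / q.gcd r : ℕ) : ℝ) * x - ((q / q.gcd r : ℕ) : ℝ) * y)
        ≤ 3 * (((r / q.gcd r : ℕ) : ℝ) * ψ₁)) :
    ∑ q ∈ Finset.Ico Q (2 * Q), ∑ r ∈ Finset.Ico Q' (2 * Q'),
        (if bad q r then ψ₂ / ((r / q.gcd r : ℕ) : ℝ) else 0) ≤
      216 * (Q * ψ₁) * (Q' * ψ₂) + 27 * Q * ψ₂ / h * (1 + Real.log (2 * Q)) := by
  have hh' : (0 : ℝ) < h := by exact_mod_cast hh
  have hQr : (0 : ℝ) < Q := by exact_mod_cast hQ
  have hQr' : (0 : ℝ) < Q' := by exact_mod_cast hQ'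
  have h1 : ∀ q ∈ Finset.Ico Q (2 * Q), ∑ r ∈ Finset.Ico Q' (2 * Q'),
        (if bad q r then ψ₂ / ((r / q.gcd r : ℕ) : ℝ) else 0) ≤
      ∑ g ∈ q.divisors, (36 * Q' * ψ₁ * ψ₂ / g + 9 * ψ₂ / h) := by
    intro q hq
    have hq' := Finset.mem_Ico.mp hq
    exact sum_r_bound q Q' h N (by omega) hQ' hh hN p hcop x y ψ₁ ψ₂ hψ₁ hψ₂ hx (bad q) (hbad q hq)
  refine (Finset.sum_le_sum h1).trans ?_
  refine (sum_divisors_block Q (fun g => 36 * Q' * ψ₁ * ψ₂ / g + 9 * ψ₂ / h)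
    (fun g => by positivity)).trans ?_
  have h2 : ∀ g ∈ Finset.Icc 1 (2 * Q), (3 * (Q : ℝ) / g) * (36 * Q' * ψ₁ * ψ₂ / g + 9 * ψ₂ / h)
      = 108 * (Q * ψ₁) * (Q' * ψ₂) * (1 / (g : ℝ) ^ 2) + 27 * Q * ψ₂ / h * (1 / (g : ℝ)) := by
    intro g hg
    have hg' := Finset.mem_Icc.mp hg
    have : (0 : ℝ) < g := by exact_mod_cast hg'.1
    field_simp
    ring
  rw [Finset.sum_congr rfl h2, Finset.sum_add_distrib, ← Finset.mul_sum, ← Finset.mul_sum]
  have h3 := sum_inv_sq_le (2 * Q)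
  have h4 := sum_inv_le_log (2 * Q)
  push_cast at h4
  have h5 : 108 * (Q * ψ₁) * (Q' * ψ₂) * ∑ g ∈ Finset.Icc 1 (2 * Q), (1 : ℝ) / (g : ℝ) ^ 2
      ≤ 108 * (Q * ψ₁) * (Q' * ψ₂) * 2 := by gcongr
  have h6 : 27 * Q * ψ₂ / h * ∑ g ∈ Finset.Icc 1 (2 * Q), (1 : ℝ) / (g : ℝ)
      ≤ 27 * Q * ψ₂ / h * (1 + Real.log (2 * Q)) := by gcongr
  linarith

end

end Pool.Agent.Lib.MP_04276e_nt
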