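import Mathlib
import Pool.Agent.Lib.MP_04276e_nt.Dio

set_option autoImplicit false

namespace Pool.Agent.Lib.MP_04276e_nt

open MeasureTheory Finset

noncomputable section

variable {ι : Type*} [Fintype ι]

abbrev PP (ι : Type*) := Σ _ : ℕ, (ι → ℕ)

def Qf (K : ℕ) (p : PP ι) : ℕ := 2 ^ (K * p.1)

def wt (k : ℕ) (p : PP ι) : ℝ := (∏ l, (p.2 l : ℝ)) * (p.1 : ℝ) ^ k

def psi (κ : ℝ) (K k : ℕ) (p : PP ι) : ℝ := κ / (Qf K p * wt k p)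

def xf (α : ι → ℝ) (p : PP ι) : ℝ := ∑ i, (p.2 i : ℝ) * α i

def box (ι : Type*) [Fintype ι] [DecidableEq ι] (s : ℕ) : Finset (ι → ℕ) :=
  Fintype.piFinset (fun _ => Finset.Icc 1 (2 ^ s))

def JJ (ι : Type*) [Fintype ι] [DecidableEq ι] (s0 M : ℕ) : Finset (PP ι) :=
  (Finset.Icc s0 M).sigma (fun s => box ι s)

def II (ι : Type*) [Fintype ι] [DecidableEq ι] (K s0 M : ℕ) : Finset (Σ _ : PP ι, ℕ) :=
  (JJ ι s0 M).sigma (fun p => Finset.Ico (Qf K p) (2 * Qf K p))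

omit [Fintype ι] in
lemma Qf_pos (K : ℕ) (p : PP ι) : 0 < Qf K p := by unfold Qf; positivity

variable [DecidableEq ι]

lemma mem_box {s : ℕ} {a : ι → ℕ} : a ∈ box ι s ↔ ∀ i, 1 ≤ a i ∧ a i ≤ 2 ^ s := by
  simp [box, Fintype.mem_piFinset]

lemma mem_JJ {s0 M : ℕ} {p : PP ι} : p ∈ JJ ι s0 M ↔
    (s0 ≤ p.1 ∧ p.1 ≤ M) ∧ ∀ i, 1 ≤ p.2 i ∧ p.2 i ≤ 2 ^ p.1 := by
  rw [JJ, Finset.mem_sigma, Finset.mem_Icc, mem_box]

lemma prod_ge_one {s : ℕ} {a : ι → ℕ} (h : a ∈ box ι s) : (1 : ℝ) ≤ ∏ l, (a l : ℝ) := by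
  have h1 := mem_box.mp h
  have : ∏ _l : ι, (1 : ℝ) ≤ ∏ l, (a l : ℝ) := by
    apply Finset.prod_le_prod
    · intro i _; norm_num
    · intro i _
      exact_mod_cast (h1 i).1
  simpa using this

lemma prod_le {s : ℕ} {a : ι → ℕ} (h : a ∈ box ι s) :
    ∏ l, (a l : ℝ) ≤ (2 : ℝ) ^ (Fintype.card ι * s) := by
  have h1 := mem_box.mp h
  have : ∏ l, (a l : ℝ) ≤ ∏ _l : ι, (2 : ℝ) ^ s := by
    apply Finset.prod_le_prod
    · intro i _; positivity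
    · intro i _
      exact_mod_cast (h1 i).2
  refine this.trans ?_
  rw [Finset.prod_const, Finset.card_univ, ← pow_mul, mul_comm]

lemma wt_ge_one {s0 M : ℕ} (hs0 : 1 ≤ s0) (k : ℕ) {p : PP ι} (hp : p ∈ JJ ι s0 M) : 1 ≤ wt k p := by
  have h1 := Finset.mem_sigma.mp hp
  have h2 := Finset.mem_Icc.mp h1.1
  have h3 := prod_ge_one h1.2
  have h4 : (1 : ℝ) ≤ (p.1 : ℝ) ^ k := by
    apply one_le_pow₀
    have : 1 ≤ p.1 := by omega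
    exact_mod_cast this
  unfold wt
  nlinarith

lemma wt_le {s0 M : ℕ} (k : ℕ) {p : PP ι} (hp : p ∈ JJ ι s0 M) :
    wt k p ≤ (2 : ℝ) ^ ((Fintype.card ι + k) * p.1) := by
  have h1 := Finset.mem_sigma.mp hp
  have h3 := prod_le h1.2
  have h5 := prod_ge_one h1.2
  have h4 : (p.1 : ℝ) ^ k ≤ (2 : ℝ) ^ (k * p.1) := by
    rw [mul_comm, pow_mul]
    gcongr
    exact_mod_cast (Nat.lt_two_pow_self (n := p.1)).le
  unfold wt
  calc (∏ l, (p.2 l : ℝ)) * (p.1 : ℝ) ^ k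
      ≤ (2 : ℝ) ^ (Fintype.card ι * p.1) * (2 : ℝ) ^ (k * p.1) := by gcongr
    _ = _ := by rw [← pow_add]; ring_nf

/-- ordering function: the larger it is the smaller the radius -/
def Rf (K k : ℕ) (p : PP ι) : ℝ := (Qf K p : ℝ) ^ 2 * wt k p

lemma ord_Q {s0 M : ℕ} (hs0 : 1 ≤ s0) (K k : ℕ) {p p' : PP ι} (hp : p ∈ JJ ι s0 M)
    (hp' : p' ∈ JJ ι s0 M) (h : Rf K k p ≤ Rf K k p') :
    Qf K p ≤ Qf K p' * 2 ^ ((Fintype.card ι + k) * p'.1) := by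
  have h1 := wt_ge_one hs0 k hp
  have h2 := wt_le k hp'
  have hQ : (0 : ℝ) < Qf K p := by exact_mod_cast Qf_pos K p
  have hQ' : (0 : ℝ) < Qf K p' := by exact_mod_cast Qf_pos K p'
  have h3 : (Qf K p : ℝ) ^ 2 ≤ ((Qf K p' : ℝ) * (2 : ℝ) ^ ((Fintype.card ι + k) * p'.1)) ^ 2 := by
    have h4 : (1 : ℝ) ≤ (2 : ℝ) ^ ((Fintype.card ι + k) * p'.1) := one_le_pow₀ (by norm_num)
    calc (Qf K p : ℝ) ^ 2 ≤ (Qf K p : ℝ) ^ 2 * wt k p := by nlinarith [sq_nonneg (Qf K p : ℝ)]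
      _ ≤ (Qf K p' : ℝ) ^ 2 * wt k p' := h
      _ ≤ (Qf K p' : ℝ) ^ 2 * (2 : ℝ) ^ ((Fintype.card ι + k) * p'.1) := by gcongr
      _ ≤ (Qf K p' : ℝ) ^ 2 * ((2 : ℝ) ^ ((Fintype.card ι + k) * p'.1)) ^ 2 := by
          gcongr
          nlinarith
      _ = _ := by ring
  have h5 := (pow_le_pow_iff_left₀ hQ.le (by positivity) (by norm_num)).mp h3
  exact_mod_cast h5

lemma ord_s {s0 M : ℕ} (hs0 : 1 ≤ s0) (K k : ℕ) (hK : Fintype.card ι + k ≤ K) (hK0 : 0 < K)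
    {p p' : PP ι} (hp : p ∈ JJ ι s0 M)
    (hp' : p' ∈ JJ ι s0 M) (h : Rf K k p ≤ Rf K k p') : p.1 ≤ 2 * p'.1 := by
  have h1 := ord_Q hs0 K k hp hp' h
  unfold Qf at h1
  rw [← pow_add] at h1
  have h2 := (Nat.pow_le_pow_iff_right (by norm_num)).mp h1
  have h3 : K * p.1 ≤ K * (2 * p'.1) := by
    have := Nat.mul_le_mul_right p'.1 hK
    nlinarith
  exact Nat.le_of_mul_le_mul_left h3 hK0

lemma psi_nonneg {s0 M : ℕ} (hs0 : 1 ≤ s0) {κ : ℝ} (hκ : 0 ≤ κ) (K k : ℕ) {p : PP ι}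
    (hp : p ∈ JJ ι s0 M) : 0 ≤ psi κ K k p := by
  have h1 := wt_ge_one hs0 k hp
  unfold psi
  positivity

lemma psi_le {s0 M : ℕ} (hs0 : 1 ≤ s0) {κ : ℝ} (hκ : 0 ≤ κ) (K k : ℕ) {p : PP ι}
    (hp : p ∈ JJ ι s0 M) : psi κ K k p ≤ κ / Qf K p := by
  have h1 := wt_ge_one hs0 k hp
  have hQ : (0 : ℝ) < Qf K p := by exact_mod_cast Qf_pos K p
  unfold psi
  apply div_le_div_of_nonneg_left hκ hQ
  nlinarith

lemma ord_psi {s0 M : ℕ} (hs0 : 1 ≤ s0) {κ : ℝ} (hκ : 0 ≤ κ) (K k : ℕ) {p p' : PP ι}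
    (hp : p ∈ JJ ι s0 M) (hp' : p' ∈ JJ ι s0 M) (h : Rf K k p ≤ Rf K k p') :
    Qf K p * psi κ K k p' ≤ Qf K p' * psi κ K k p := by
  have h1 := wt_ge_one hs0 k hp
  have h2 := wt_ge_one hs0 k hp'
  have hQ : (0 : ℝ) < Qf K p := by exact_mod_cast Qf_pos K p
  have hQ' : (0 : ℝ) < Qf K p' := by exact_mod_cast Qf_pos K p'
  unfold psi
  rw [mul_div_assoc', mul_div_assoc', div_le_div_iff₀ (by positivity) (by positivity)]
  unfold Rf at h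
  nlinarith [mul_le_mul_of_nonneg_left h hκ]

lemma ord_gcd {s0 M : ℕ} (hs0 : 1 ≤ s0) {κ : ℝ} (hκ : 0 ≤ κ) (K k : ℕ) {p p' : PP ι}
    (hp : p ∈ JJ ι s0 M) (hp' : p' ∈ JJ ι s0 M) (h : Rf K k p ≤ Rf K k p')
    {q r : ℕ} (hq : q ∈ Finset.Ico (Qf K p) (2 * Qf K p))
    (hr : r ∈ Finset.Ico (Qf K p') (2 * Qf K p')) :
    ((q / q.gcd r : ℕ) : ℝ) * psi κ K k p' ≤ 2 * (((r / q.gcd r : ℕ) : ℝ) * psi κ K k p) := by
  have h1 := ord_psi hs0 hκ K k hp hp' h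
  have hqI := Finset.mem_Ico.mp hq
  have hrI := Finset.mem_Ico.mp hr
  have hQ : 0 < Qf K p := Qf_pos K p
  have hQ' : 0 < Qf K p' := Qf_pos K p'
  have hg0 : 0 < q.gcd r := Nat.gcd_pos_of_pos_left r (by omega)
  have hg' : (0 : ℝ) < (q.gcd r : ℝ) := by exact_mod_cast hg0
  rw [Nat.cast_div (Nat.gcd_dvd_left q r) hg'.ne', Nat.cast_div (Nat.gcd_dvd_right q r) hg'.ne']
  have hψ := psi_nonneg hs0 hκ K k hp
  have hψ' := psi_nonneg hs0 hκ K k hp'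
  have e1 : (q : ℝ) ≤ 2 * Qf K p := by
    have := hqI.2.le
    exact_mod_cast this
  have e2 : (Qf K p' : ℝ) ≤ r := by exact_mod_cast hrI.1
  have key : (q : ℝ) * psi κ K k p' ≤ 2 * ((r : ℝ) * psi κ K k p) := by
    calc (q : ℝ) * psi κ K k p' ≤ (2 * Qf K p) * psi κ K k p' := by gcongr
      _ = 2 * (Qf K p * psi κ K k p') := by ring
      _ ≤ 2 * (Qf K p' * psi κ K k p) := by gcongr
      _ ≤ 2 * ((r : ℝ) * psi κ K k p) := by gcongr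
  rw [div_mul_eq_mul_div, div_mul_eq_mul_div, mul_div_assoc', div_le_div_iff_of_pos_right hg']
  exact key

end

end Pool.Agent.Lib.MP_04276e_nt
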