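import Mathlib
import Pool.Agent.Lib.MP_04276e_nt.T1

set_option autoImplicit false

namespace Pool.Agent.Lib.MP_04276e_nt

open MeasureTheory Finset

noncomputable section

variable {ι : Type*} [Fintype ι] [DecidableEq ι]

/-- degenerate pairs -/
def degP (p p' : PP ι) (q r : ℕ) : Prop :=
  ∀ l, (r / q.gcd r) * p.2 l = (q / q.gcd r) * p'.2 l

lemma deg_bound (s0 M K k : ℕ) (hs0 : 1 ≤ s0) {p p' : PP ι}
    (hp' : p' ∈ JJ ι s0 M) {q r : ℕ} (hq : q ∈ Finset.Ico (Qf K p) (2 * Qf K p))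
    (hr : r ∈ Finset.Ico (Qf K p') (2 * Qf K p')) (h : Rf K k p ≤ Rf K k p') (hdeg : degP p p' q r) :
    q / q.gcd r ≤ 2 * (r / q.gcd r) := by
  by_contra hcon
  push Not at hcon
  have hqI := Finset.mem_Ico.mp hq
  have hrI := Finset.mem_Ico.mp hr
  have hQ : 0 < Qf K p := Qf_pos K p
  have hQ' : 0 < Qf K p' := Qf_pos K p'
  have hg0 : 0 < q.gcd r := Nat.gcd_pos_of_pos_left r (by omega)
  have hgr : q.gcd r ∣ r := Nat.gcd_dvd_right q r
  have hgq : q.gcd r ∣ q := Nat.gcd_dvd_left q r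
  have hr0 : 0 < r / q.gcd r := Nat.div_pos (Nat.le_of_dvd (by omega) hgr) hg0
  have h1 : 2 * r < q := by
    calc 2 * r = 2 * (r / q.gcd r) * q.gcd r := by
          rw [mul_assoc, Nat.div_mul_cancel hgr]
      _ < (q / q.gcd r) * q.gcd r := Nat.mul_lt_mul_of_pos_right hcon hg0
      _ = q := Nat.div_mul_cancel hgq
  have h2 : Qf K p' < Qf K p := by omega
  have h3 : p'.1 < p.1 := by
    unfold Qf at h2
    have := (Nat.pow_lt_pow_iff_right (by norm_num)).mp h2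
    exact Nat.lt_of_mul_lt_mul_left this
  have h4 : ∀ l, p'.2 l ≤ p.2 l := by
    intro l
    have e1 := hdeg l
    have e2 : (r / q.gcd r) * p'.2 l ≤ (r / q.gcd r) * p.2 l := by
      rw [e1]
      apply Nat.mul_le_mul_right
      omega
    exact Nat.le_of_mul_le_mul_left e2 hr0
  have h5 : wt k p' ≤ wt k p := by
    unfold wt
    apply mul_le_mul
    · apply Finset.prod_le_prod
      · intro i _; positivity
      · intro i _; exact_mod_cast h4 i
    · apply pow_le_pow_left₀ (by positivity)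
      exact_mod_cast h3.le
    · positivity
    · apply Finset.prod_nonneg
      intro i _; positivity
  have h6 := wt_ge_one hs0 k hp'
  have h7 : (Qf K p' : ℝ) < Qf K p := by exact_mod_cast h2
  have h8 : (0 : ℝ) < Qf K p' := by exact_mod_cast hQ'
  have h9 : (Qf K p' : ℝ) ^ 2 < (Qf K p : ℝ) ^ 2 := by nlinarith
  unfold Rf at h
  nlinarith

open scoped Classical in
lemma T0_fix [Nonempty ι] (κ : ℝ) (hκ : 0 ≤ κ) (s0 M K k : ℕ) (hs0 : 1 ≤ s0) (hK0 : 0 < K) {p' : PP ι}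
    (hp' : p' ∈ JJ ι s0 M) {r : ℕ} (hr : r ∈ Finset.Ico (Qf K p') (2 * Qf K p')) :
    ∑ p ∈ JJ ι s0 M, ∑ q ∈ Finset.Ico (Qf K p) (2 * Qf K p),
      (if Rf K k p ≤ Rf K k p' ∧ degP p p' q r then
        psi κ K k p' / ((r / q.gcd r : ℕ) : ℝ) else 0) ≤
      2 * psi κ K k p' * ((r.divisors.filter (fun e => ∀ l, e ∣ p'.2 l)).card : ℝ) := by
  have hrI := Finset.mem_Ico.mp hr
  have hQ' : 0 < Qf K p' := Qf_pos K p'
  have hr0 : 0 < r := by omega
  have hψ' := psi_nonneg hs0 hκ K k hp'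
  rw [← Finset.sum_sigma (s := JJ ι s0 M) (t := fun p => Finset.Ico (Qf K p) (2 * Qf K p))
    (f := fun i => (if Rf K k i.1 ≤ Rf K k p' ∧ degP i.1 p' i.2 r then
        psi κ K k p' / ((r / i.2.gcd r : ℕ) : ℝ) else 0)), ← Finset.sum_filter]
  set A := ((JJ ι s0 M).sigma (fun p => Finset.Ico (Qf K p) (2 * Qf K p))).filter
    (fun i => Rf K k i.1 ≤ Rf K k p' ∧ degP i.1 p' i.2 r) with hA
  set T := (r.divisors.filter (fun e => ∀ l, e ∣ p'.2 l)).sigma (fun e => Finset.Icc 1 (2 * e)) with hT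
  let φ : (Σ _ : PP ι, ℕ) → (Σ _ : ℕ, ℕ) := fun i => ⟨r / i.2.gcd r, i.2 / i.2.gcd r⟩
  have hinj : Set.InjOn φ A := by
    rintro ⟨⟨s1, a1⟩, q1⟩ h1 ⟨⟨s2, a2⟩, q2⟩ h2 heq
    have h1' := Finset.mem_filter.mp h1
    have h2' := Finset.mem_filter.mp h2
    have h1s := Finset.mem_sigma.mp h1'.1
    have h2s := Finset.mem_sigma.mp h2'.1
    have h1q := Finset.mem_Ico.mp h1s.2
    have h2q := Finset.mem_Ico.mp h2s.2
    have h1d := h1'.2.2
    have h2d := h2'.2.2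
    unfold degP at h1d h2d
    simp only [φ, Sigma.mk.injEq, heq_eq_eq] at heq h1d h2d h1q h2q
    obtain ⟨he1, he2⟩ := heq
    have hp1 : 0 < q1 := lt_of_lt_of_le (Qf_pos K _) h1q.1
    have hp2 : 0 < q2 := lt_of_lt_of_le (Qf_pos K _) h2q.1
    have hg1 : 0 < q1.gcd r := Nat.gcd_pos_of_pos_left r hp1
    have hg2 : 0 < q2.gcd r := Nat.gcd_pos_of_pos_left r hp2
    have hrg1 : (r / q1.gcd r) * q1.gcd r = r := Nat.div_mul_cancel (Nat.gcd_dvd_right _ _)
    have hrg2 : (r / q2.gcd r) * q2.gcd r = r := Nat.div_mul_cancel (Nat.gcd_dvd_right _ _)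
    have hr1 : 0 < r / q1.gcd r := by
      rcases Nat.eq_zero_or_pos (r / q1.gcd r) with h0 | h0
      · rw [h0] at hrg1; omega
      · exact h0
    have hgg : q1.gcd r = q2.gcd r := by
      rw [← he1] at hrg2
      have : (r / q1.gcd r) * q1.gcd r = (r / q1.gcd r) * q2.gcd r := by rw [hrg1, hrg2]
      exact Nat.eq_of_mul_eq_mul_left hr1 this
    have hqq : q1 = q2 := by
      rw [← Nat.div_mul_cancel (Nat.gcd_dvd_left q1 r), ← Nat.div_mul_cancel (Nat.gcd_dvd_left q2 r),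
        he2, hgg]
    subst hqq
    have hss : s1 = s2 := by
      unfold Qf at h1q h2q
      simp only at h1q h2q
      have e1 : 2 ^ (K * s1) < 2 ^ (K * s2 + 1) := by
        calc 2 ^ (K * s1) ≤ q1 := h1q.1
          _ < 2 * 2 ^ (K * s2) := h2q.2
          _ = _ := by ring
      have e2 : 2 ^ (K * s2) < 2 ^ (K * s1 + 1) := by
        calc 2 ^ (K * s2) ≤ q1 := h2q.1
          _ < 2 * 2 ^ (K * s1) := h1q.2
          _ = _ := by ring
      have e3 := (Nat.pow_lt_pow_iff_right (by norm_num)).mp e1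
      have e4 := (Nat.pow_lt_pow_iff_right (by norm_num)).mp e2
      have e5 : K * s1 = K * s2 := by omega
      exact Nat.eq_of_mul_eq_mul_left hK0 e5
    subst hss
    have haa : a1 = a2 := by
      funext l
      have f1 := h1d l
      have f2 := h2d l
      rw [← f2] at f1
      exact Nat.eq_of_mul_eq_mul_left hr1 f1
    subst haa
    rfl
  have hmaps : ∀ i ∈ A, φ i ∈ T := by
    rintro ⟨⟨s1, a1⟩, q1⟩ h1
    have h1' := Finset.mem_filter.mp h1
    have h1s := Finset.mem_sigma.mp h1'.1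
    have h1q := Finset.mem_Ico.mp h1s.2
    have h1d := h1'.2.2
    simp only at h1d h1q
    have hp1 : 0 < q1 := lt_of_lt_of_le (Qf_pos K _) h1q.1
    have hg1 : 0 < q1.gcd r := Nat.gcd_pos_of_pos_left r hp1
    rw [hT, Finset.mem_sigma, Finset.mem_filter, Finset.mem_Icc, Nat.mem_divisors]
    refine ⟨⟨⟨Nat.div_dvd_of_dvd (Nat.gcd_dvd_right _ _), hr0.ne'⟩, ?_⟩, ?_, ?_⟩
    · intro l
      have hc : Nat.Coprime (r / q1.gcd r) (q1 / q1.gcd r) :=
        (Nat.coprime_div_gcd_div_gcd hg1).symm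
      have : (r / q1.gcd r) ∣ (q1 / q1.gcd r) * p'.2 l := ⟨a1 l, (h1d l).symm⟩
      exact hc.dvd_of_dvd_mul_left this
    · exact Nat.div_pos (Nat.le_of_dvd hp1 (Nat.gcd_dvd_left _ _)) hg1
    · exact deg_bound s0 M K k hs0 hp' h1s.2 hr h1'.2.1 h1'.2.2
  have hsum : ∑ i ∈ A, psi κ K k p' / ((r / i.2.gcd r : ℕ) : ℝ) =
      ∑ x ∈ A.image φ, psi κ K k p' / (x.1 : ℝ) := by
    rw [Finset.sum_image hinj]
  rw [hsum]
  calc ∑ x ∈ A.image φ, psi κ K k p' / (x.1 : ℝ) ≤ ∑ x ∈ T, psi κ K k p' / (x.1 : ℝ) := by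
        apply Finset.sum_le_sum_of_subset_of_nonneg
        · intro x hx
          obtain ⟨i, hi, rfl⟩ := Finset.mem_image.mp hx
          exact hmaps i hi
        · intro x _ _
          positivity
    _ = ∑ e ∈ r.divisors.filter (fun e => ∀ l, e ∣ p'.2 l), ∑ _u ∈ Finset.Icc 1 (2 * e),
          psi κ K k p' / (e : ℝ) := by rw [hT, Finset.sum_sigma]
    _ = ∑ e ∈ r.divisors.filter (fun e => ∀ l, e ∣ p'.2 l), 2 * psi κ K k p' := by
        apply Finset.sum_congr rfl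
        intro e he
        have he0 : 0 < e := Nat.pos_of_mem_divisors (Finset.mem_filter.mp he).1
        have he' : (e : ℝ) ≠ 0 := by exact_mod_cast he0.ne'
        rw [Finset.sum_const, nsmul_eq_mul, Nat.card_Icc, Nat.add_sub_cancel]
        push_cast
        field_simp
    _ = _ := by
        rw [Finset.sum_const, nsmul_eq_mul]
        ring

lemma sum_mult_inv_le (Y e : ℕ) (he : 0 < e) :
    ∑ j ∈ Finset.Icc 1 Y, (if e ∣ j then (j : ℝ)⁻¹ else 0) ≤
      (e : ℝ)⁻¹ * ∑ j ∈ Finset.Icc 1 Y, (j : ℝ)⁻¹ := by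
  rw [← Finset.sum_filter, Finset.mul_sum]
  have hsub : (Finset.Icc 1 Y).filter (fun j => e ∣ j) ⊆ (Finset.Icc 1 Y).image (fun u => e * u) := by
    intro j hj
    obtain ⟨h1, u, rfl⟩ := Finset.mem_filter.mp hj
    have h2 := Finset.mem_Icc.mp h1
    rw [Finset.mem_image]
    refine ⟨u, Finset.mem_Icc.mpr ⟨?_, ?_⟩, rfl⟩
    · rcases Nat.eq_zero_or_pos u with h0 | h0
      · subst h0; omega
      · exact h0
    · exact (Nat.le_mul_of_pos_left u he).trans h2.2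
  calc ∑ j ∈ (Finset.Icc 1 Y).filter (fun j => e ∣ j), (j : ℝ)⁻¹
      ≤ ∑ j ∈ (Finset.Icc 1 Y).image (fun u => e * u), (j : ℝ)⁻¹ := by
        apply Finset.sum_le_sum_of_subset_of_nonneg hsub
        intro i _ _
        positivity
    _ = ∑ u ∈ Finset.Icc 1 Y, ((e * u : ℕ) : ℝ)⁻¹ := by
        rw [Finset.sum_image]
        intro a _ b _ hab
        exact Nat.eq_of_mul_eq_mul_left he hab
    _ = _ := by
        apply Finset.sum_congr rfl
        intro u _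
        push_cast
        rw [mul_inv]

lemma box_sum (s : ℕ) : ∑ b ∈ box ι s, ∏ l, ((b l : ℝ))⁻¹ =
    (∑ j ∈ Finset.Icc (1 : ℕ) (2 ^ s), (j : ℝ)⁻¹) ^ Fintype.card ι := by
  rw [box, ← Finset.prod_univ_sum (fun _ : ι => Finset.Icc (1 : ℕ) (2 ^ s)) (fun _ j => ((j : ℝ))⁻¹),
    Finset.prod_const, Finset.card_univ]

open scoped Classical in
lemma box_sum_dvd [Nonempty ι] (s e : ℕ) (he : 0 < e) :
    ∑ b ∈ box ι s, (if ∀ l, e ∣ b l then ∏ l, ((b l : ℝ))⁻¹ else 0) ≤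
    (e : ℝ)⁻¹ * ∑ b ∈ box ι s, ∏ l, ((b l : ℝ))⁻¹ := by
  have h1 : ∑ b ∈ box ι s, (if ∀ l, e ∣ b l then ∏ l, ((b l : ℝ))⁻¹ else 0) =
      (∑ j ∈ Finset.Icc 1 (2 ^ s), (if e ∣ j then (j : ℝ)⁻¹ else 0)) ^ Fintype.card ι := by
    have := Finset.prod_univ_sum (fun _ : ι => Finset.Icc 1 (2 ^ s))
      (fun _ j => (if e ∣ j then (j : ℝ)⁻¹ else 0))
    rw [Finset.prod_const, Finset.card_univ] at this
    rw [this, box]
    apply Finset.sum_congr rfl
    intro b _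
    rw [Finset.prod_ite_zero]
    simp
  rw [h1, box_sum]
  have h2 := sum_mult_inv_le (2 ^ s) e he
  have h3 : 0 ≤ ∑ j ∈ Finset.Icc 1 (2 ^ s), (if e ∣ j then (j : ℝ)⁻¹ else 0) := by
    apply Finset.sum_nonneg
    intro j _
    split_ifs <;> positivity
  have h4 : 0 ≤ ∑ j ∈ Finset.Icc (1 : ℕ) (2 ^ s), (j : ℝ)⁻¹ := by
    apply Finset.sum_nonneg
    intro j _
    positivity
  have h5 : (e : ℝ)⁻¹ ≤ 1 := by
    apply inv_le_one_of_one_le₀
    exact_mod_cast he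
  calc _ ≤ ((e : ℝ)⁻¹ * ∑ j ∈ Finset.Icc (1 : ℕ) (2 ^ s), (j : ℝ)⁻¹) ^ Fintype.card ι := by
        gcongr
    _ = ((e : ℝ)⁻¹) ^ Fintype.card ι * (∑ j ∈ Finset.Icc (1 : ℕ) (2 ^ s), (j : ℝ)⁻¹) ^ Fintype.card ι := by
        rw [mul_pow]
    _ ≤ (e : ℝ)⁻¹ * (∑ j ∈ Finset.Icc (1 : ℕ) (2 ^ s), (j : ℝ)⁻¹) ^ Fintype.card ι := by
        apply mul_le_mul_of_nonneg_right _ (by positivity)
        calc ((e : ℝ)⁻¹) ^ Fintype.card ι ≤ ((e : ℝ)⁻¹) ^ 1 :=
              pow_le_pow_of_le_one (by positivity) h5 Fintype.card_pos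
          _ = _ := pow_one _

open scoped Classical in
lemma T0_scale [Nonempty ι] (s Q : ℕ) (hQ : 2 ^ s ≤ 2 * Q) :
    ∑ b ∈ box ι s, ∑ r ∈ Finset.Ico Q (2 * Q),
      (∏ l, ((b l : ℝ))⁻¹) * ((r.divisors.filter (fun e => ∀ l, e ∣ b l)).card : ℝ) ≤
    6 * Q * ∑ b ∈ box ι s, ∏ l, ((b l : ℝ))⁻¹ := by
  obtain ⟨l0⟩ := ‹Nonempty ι›
  have h1 : ∀ b ∈ box ι s, ∀ r ∈ Finset.Ico Q (2 * Q),
      (∏ l, ((b l : ℝ))⁻¹) * ((r.divisors.filter (fun e => ∀ l, e ∣ b l)).card : ℝ) ≤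
      ∑ e ∈ Finset.Icc 1 (2 ^ s), (if e ∣ r then (if ∀ l, e ∣ b l then ∏ l, ((b l : ℝ))⁻¹ else 0) else 0) := by
    intro b hb r _
    have hb' := mem_box.mp hb
    have hsub : r.divisors.filter (fun e => ∀ l, e ∣ b l) ⊆
        (Finset.Icc 1 (2 ^ s)).filter (fun e => e ∣ r ∧ ∀ l, e ∣ b l) := by
      intro e he
      have he' := Finset.mem_filter.mp he
      have he1 := Nat.mem_divisors.mp he'.1
      have he0 : 0 < e := Nat.pos_of_mem_divisors he'.1
      rw [Finset.mem_filter, Finset.mem_Icc]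
      refine ⟨⟨he0, ?_⟩, he1.1, he'.2⟩
      exact (Nat.le_of_dvd (hb' l0).1 (he'.2 l0)).trans (hb' l0).2
    have h2 : ((r.divisors.filter (fun e => ∀ l, e ∣ b l)).card : ℝ) ≤
        (((Finset.Icc 1 (2 ^ s)).filter (fun e => e ∣ r ∧ ∀ l, e ∣ b l)).card : ℝ) := by
      exact_mod_cast Finset.card_le_card hsub
    have h3 : (0 : ℝ) ≤ ∏ l, ((b l : ℝ))⁻¹ := Finset.prod_nonneg (fun i _ => by positivity)
    calc _ ≤ (∏ l, ((b l : ℝ))⁻¹) *
          (((Finset.Icc 1 (2 ^ s)).filter (fun e => e ∣ r ∧ ∀ l, e ∣ b l)).card : ℝ) := by gcongr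
      _ = _ := by
          rw [mul_comm, ← nsmul_eq_mul, ← Finset.sum_const, Finset.sum_filter]
          apply Finset.sum_congr rfl
          intro e _
          by_cases h4 : e ∣ r <;> by_cases h5 : ∀ l, e ∣ b l <;> simp [h4, h5]
  refine (Finset.sum_le_sum fun b hb => Finset.sum_le_sum fun r hr => h1 b hb r hr).trans ?_
  have h2 : ∑ b ∈ box ι s, ∑ r ∈ Finset.Ico Q (2 * Q), ∑ e ∈ Finset.Icc 1 (2 ^ s),
      (if e ∣ r then (if ∀ l, e ∣ b l then ∏ l, ((b l : ℝ))⁻¹ else 0) else 0) =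
      ∑ e ∈ Finset.Icc 1 (2 ^ s), (((Finset.Ico Q (2 * Q)).filter (fun r => e ∣ r)).card : ℝ) *
        ∑ b ∈ box ι s, (if ∀ l, e ∣ b l then ∏ l, ((b l : ℝ))⁻¹ else 0) := by
    have : ∀ b ∈ box ι s, ∑ r ∈ Finset.Ico Q (2 * Q), ∑ e ∈ Finset.Icc 1 (2 ^ s),
      (if e ∣ r then (if ∀ l, e ∣ b l then ∏ l, ((b l : ℝ))⁻¹ else 0) else 0) =
      ∑ e ∈ Finset.Icc 1 (2 ^ s), (((Finset.Ico Q (2 * Q)).filter (fun r => e ∣ r)).card : ℝ) *
        (if ∀ l, e ∣ b l then ∏ l, ((b l : ℝ))⁻¹ else 0) := by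
      intro b _
      rw [Finset.sum_comm]
      apply Finset.sum_congr rfl
      intro e _
      rw [← Finset.sum_filter, Finset.sum_const, nsmul_eq_mul]
    rw [Finset.sum_congr rfl this, Finset.sum_comm]
    apply Finset.sum_congr rfl
    intro e _
    rw [Finset.mul_sum]
  rw [h2]
  set W := ∑ b ∈ box ι s, ∏ l, ((b l : ℝ))⁻¹ with hW
  have hW0 : 0 ≤ W := by
    apply Finset.sum_nonneg
    intro b _
    exact Finset.prod_nonneg (fun i _ => by positivity)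
  have : Nonempty ι := ⟨l0⟩
  calc _ ≤ ∑ e ∈ Finset.Icc (1 : ℕ) (2 ^ s), (3 * Q / e : ℝ) * ((e : ℝ)⁻¹ * W) := by
        apply Finset.sum_le_sum
        intro e he
        have he' := Finset.mem_Icc.mp he
        apply mul_le_mul
        · exact card_mult' Q e he'.1 (he'.2.trans hQ)
        · exact box_sum_dvd s e he'.1
        · apply Finset.sum_nonneg
          intro b _
          split_ifs
          · exact Finset.prod_nonneg (fun i _ => by positivity)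
          · exact le_refl _
        · positivity
    _ = 3 * Q * W * ∑ e ∈ Finset.Icc (1 : ℕ) (2 ^ s), (1 : ℝ) / ((e : ℝ) ^ 2) := by
        rw [Finset.mul_sum]
        apply Finset.sum_congr rfl
        intro e he
        have he' := Finset.mem_Icc.mp he
        have : (e : ℝ) ≠ 0 := by
          have : 0 < e := he'.1
          exact_mod_cast this.ne'
        field_simp
    _ ≤ 3 * Q * W * 2 := by
        apply mul_le_mul_of_nonneg_left (sum_inv_sq_le _) (by positivity)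
    _ = _ := by ring

omit [DecidableEq ι] in
lemma psi_eq (κ : ℝ) (K k s : ℕ) (b : ι → ℕ) :
    psi κ K k (⟨s, b⟩ : PP ι) = κ / (2 ^ (K * s) * (s : ℝ) ^ k) * ∏ l, ((b l : ℝ))⁻¹ := by
  unfold psi Qf wt
  simp only
  push_cast
  rw [Finset.prod_inv_distrib, div_mul_eq_div_div, div_mul_eq_div_div, div_mul_eq_div_div]
  rw [← div_eq_mul_inv, div_right_comm]

open scoped Classical in
lemma T0_total [Nonempty ι] (κ : ℝ) (hκ : 0 ≤ κ) (s0 M K k : ℕ) (hs0 : 1 ≤ s0) (hK0 : 0 < K) :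
    ∑ p' ∈ JJ ι s0 M, ∑ r ∈ Finset.Ico (Qf K p') (2 * Qf K p'),
      ∑ p ∈ JJ ι s0 M, ∑ q ∈ Finset.Ico (Qf K p) (2 * Qf K p),
      (if Rf K k p ≤ Rf K k p' ∧ degP p p' q r then
        psi κ K k p' / ((r / q.gcd r : ℕ) : ℝ) else 0) ≤
      12 * ∑ p ∈ JJ ι s0 M, Qf K p * psi κ K k p := by
  calc _ ≤ ∑ p' ∈ JJ ι s0 M, ∑ r ∈ Finset.Ico (Qf K p') (2 * Qf K p'),
        2 * psi κ K k p' * ((r.divisors.filter (fun e => ∀ l, e ∣ p'.2 l)).card : ℝ) := by
        apply Finset.sum_le_sum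
        intro p' hp'
        apply Finset.sum_le_sum
        intro r hr
        exact T0_fix κ hκ s0 M K k hs0 hK0 hp' hr
    _ = ∑ s ∈ Finset.Icc s0 M, (2 * (κ / (2 ^ (K * s) * (s : ℝ) ^ k))) *
          ∑ b ∈ box ι s, ∑ r ∈ Finset.Ico (2 ^ (K * s)) (2 * 2 ^ (K * s)),
          (∏ l, ((b l : ℝ))⁻¹) * ((r.divisors.filter (fun e => ∀ l, e ∣ b l)).card : ℝ) := by
        rw [JJ, Finset.sum_sigma]
        apply Finset.sum_congr rfl
        intro s _
        rw [Finset.mul_sum]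
        apply Finset.sum_congr rfl
        intro b _
        rw [Finset.mul_sum]
        apply Finset.sum_congr rfl
        intro r _
        rw [psi_eq]
        ring
    _ ≤ ∑ s ∈ Finset.Icc s0 M, (2 * (κ / (2 ^ (K * s) * (s : ℝ) ^ k))) *
          (6 * ((2 ^ (K * s) : ℕ) : ℝ) * ∑ b ∈ box ι s, ∏ l, ((b l : ℝ))⁻¹) := by
        apply Finset.sum_le_sum
        intro s _
        apply mul_le_mul_of_nonneg_left _ (by positivity)
        apply T0_scale
        have h1 : 2 ^ s ≤ 2 ^ (K * s) := by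
          apply Nat.pow_le_pow_right (by norm_num)
          exact Nat.le_mul_of_pos_left s hK0
        omega
    _ = 12 * ∑ p ∈ JJ ι s0 M, Qf K p * psi κ K k p := by
        rw [JJ, Finset.sum_sigma, Finset.mul_sum]
        apply Finset.sum_congr rfl
        intro s _
        rw [Finset.mul_sum, Finset.mul_sum, Finset.mul_sum]
        apply Finset.sum_congr rfl
        intro b _
        rw [psi_eq]
        unfold Qf
        simp only
        ring

end

end Pool.Agent.Lib.MP_04276e_nt
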