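import Mathlib
import Pool.Agent.Lib.MP_04276e_nt.T0

set_option autoImplicit false

namespace Pool.Agent.Lib.MP_04276e_nt

open MeasureTheory Finset Filter

noncomputable section

/-- a Paley-Zygmund type inequality -/
lemma pz {Ω : Type*} [MeasurableSpace Ω] (μ : Measure Ω) [IsProbabilityMeasure μ] {β : Type*}
    (s : Finset β) (E : β → Set Ω) (hE : ∀ i ∈ s, MeasurableSet (E i)) (S A : ℝ) (hS : 0 < S)
    (hA : 0 < A) (h1 : 2 * S ≤ ∑ i ∈ s, μ.real (E i))
    (h2 : ∑ i ∈ s, ∑ j ∈ s, μ.real (E i ∩ E j) ≤ A * S ^ 2) :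
    1 / A ≤ μ.real {ω | S ≤ ∑ i ∈ s, (E i).indicator (fun _ => (1 : ℝ)) ω} := by
  set f : Ω → ℝ := fun ω => ∑ i ∈ s, (E i).indicator (fun _ => (1 : ℝ)) ω with hf
  set G : Set Ω := {ω | S ≤ f ω} with hG
  have hint : ∀ i ∈ s, Integrable ((E i).indicator (fun _ => (1 : ℝ))) μ := fun i hi =>
    (integrable_const (1 : ℝ)).indicator (hE i hi)
  have hfint : Integrable f μ := by
    apply integrable_finsetSum
    exact hint
  have hfmeas : Measurable f := by
    apply Finset.measurable_sum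
    intro i hi
    exact measurable_const.indicator (hE i hi)
  have hGm : MeasurableSet G := measurableSet_le measurable_const hfmeas
  have hsq : ∀ ω, (f ω) ^ 2 = ∑ i ∈ s, ∑ j ∈ s, (E i ∩ E j).indicator (fun _ => (1 : ℝ)) ω := by
    intro ω
    simp only [hf]
    rw [sq, Finset.sum_mul_sum]
    apply Finset.sum_congr rfl
    intro i _
    apply Finset.sum_congr rfl
    intro j _
    by_cases hi : ω ∈ E i <;> by_cases hj : ω ∈ E j <;> simp [hi, hj]
  have hint2 : ∀ i ∈ s, ∀ j ∈ s, Integrable ((E i ∩ E j).indicator (fun _ => (1 : ℝ))) μ :=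
    fun i hi j hj => (integrable_const (1 : ℝ)).indicator ((hE i hi).inter (hE j hj))
  have hf2int : Integrable (fun ω => (f ω) ^ 2) μ := by
    simp_rw [hsq]
    apply integrable_finsetSum
    intro i hi
    apply integrable_finsetSum
    intro j hj
    exact hint2 i hi j hj
  have hI1 : ∫ ω, f ω ∂μ = ∑ i ∈ s, μ.real (E i) := by
    simp only [hf]
    rw [integral_finsetSum s hint]
    apply Finset.sum_congr rfl
    intro i hi
    rw [integral_indicator_const _ (hE i hi)]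
    simp
  have hI2 : ∫ ω, (f ω) ^ 2 ∂μ = ∑ i ∈ s, ∑ j ∈ s, μ.real (E i ∩ E j) := by
    simp_rw [hsq]
    rw [integral_finsetSum s (fun i hi => integrable_finsetSum s (fun j hj => hint2 i hi j hj))]
    apply Finset.sum_congr rfl
    intro i hi
    rw [integral_finsetSum s (hint2 i hi)]
    apply Finset.sum_congr rfl
    intro j hj
    rw [integral_indicator_const _ ((hE i hi).inter (hE j hj))]
    simp
  set l : ℝ := A * S with hl
  have hl0 : 0 < l := by positivity
  have hpt : ∀ ω, f ω ≤ S + (l / 2) * G.indicator (fun _ => (1 : ℝ)) ω + (f ω) ^ 2 / (2 * l) := by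
    intro ω
    by_cases hω : ω ∈ G
    · rw [Set.indicator_of_mem hω]
      have : f ω ≤ l / 2 + (f ω) ^ 2 / (2 * l) := by
        rw [div_add_div _ _ (by norm_num) (by positivity), le_div_iff₀ (by positivity)]
        nlinarith [sq_nonneg (f ω - l)]
      linarith
    · rw [Set.indicator_of_notMem hω]
      have h3 : f ω < S := not_le.mp hω
      have : 0 ≤ (f ω) ^ 2 / (2 * l) := by positivity
      linarith
  have hGint : Integrable (fun ω => (l / 2) * G.indicator (fun _ => (1 : ℝ)) ω) μ :=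
    ((integrable_const (1 : ℝ)).indicator hGm).const_mul _
  have hmono : ∫ ω, f ω ∂μ ≤
      ∫ ω, (S + (l / 2) * G.indicator (fun _ => (1 : ℝ)) ω + (f ω) ^ 2 / (2 * l)) ∂μ := by
    apply integral_mono hfint _ hpt
    exact ((integrable_const S).add hGint).add (hf2int.div_const _)
  have hR : ∫ ω, (S + (l / 2) * G.indicator (fun _ => (1 : ℝ)) ω + (f ω) ^ 2 / (2 * l)) ∂μ
      = S + (l / 2) * μ.real G + (∑ i ∈ s, ∑ j ∈ s, μ.real (E i ∩ E j)) / (2 * l) := by
    have hg1 : Integrable (fun ω => S + (l / 2) * G.indicator (fun _ => (1 : ℝ)) ω) μ :=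
      (integrable_const S).add hGint
    rw [integral_add hg1 (hf2int.div_const _),
      integral_add (integrable_const S) hGint, integral_const_mul, integral_indicator_const _ hGm,
      integral_div, hI2]
    simp
  rw [hR, hI1] at hmono
  have h3 : (∑ i ∈ s, ∑ j ∈ s, μ.real (E i ∩ E j)) / (2 * l) ≤ S / 2 := by
    rw [div_le_iff₀ (by positivity), hl]
    nlinarith
  have h4 : S / 2 ≤ (l / 2) * μ.real G := by linarith
  rw [div_le_iff₀ hA]
  rw [hl] at h4
  by_contra hcon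
  push Not at hcon
  nlinarith

/-- the limsup set has measure bounded below -/
lemma limsup_pz {Ω : Type*} [MeasurableSpace Ω] (μ : Measure Ω) [IsProbabilityMeasure μ] {β : Type*}
    (s : ℕ → Finset β) (hs : Monotone s) (E : β → Set Ω) (hE : ∀ i, MeasurableSet (E i))
    (S : ℕ → ℝ) (A : ℝ) (hA : 0 < A) (hS : Tendsto S atTop atTop)
    (h1 : ∀ M, 2 * S M ≤ ∑ i ∈ s M, μ.real (E i))
    (h2 : ∀ᶠ M in atTop, ∑ i ∈ s M, ∑ j ∈ s M, μ.real (E i ∩ E j) ≤ A * (S M) ^ 2) :
    ∃ W : Set Ω, MeasurableSet W ∧ ENNReal.ofReal (1 / A) ≤ μ W ∧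
      ∀ ω ∈ W, Set.Infinite {i | (∃ M, i ∈ s M) ∧ ω ∈ E i} := by
  set f : ℕ → Ω → ℝ := fun M ω => ∑ i ∈ s M, (E i).indicator (fun _ => (1 : ℝ)) ω with hf
  have hfmeas : ∀ M, Measurable (f M) := by
    intro M
    apply Finset.measurable_sum
    intro i _
    exact measurable_const.indicator (hE i)
  set U : ℕ → Set Ω := fun N => ⋃ M, {ω | (N : ℝ) ≤ f M ω} with hU
  have hUm : ∀ N, MeasurableSet (U N) := by
    intro N
    apply MeasurableSet.iUnion
    intro M
    exact measurableSet_le measurable_const (hfmeas M)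
  have hUa : Antitone U := by
    intro N N' hNN ω hω
    rw [hU, Set.mem_iUnion] at hω ⊢
    obtain ⟨M, hM⟩ := hω
    have hM' : (N' : ℝ) ≤ f M ω := hM
    have hNN' : (N : ℝ) ≤ N' := by exact_mod_cast hNN
    exact ⟨M, hNN'.trans hM'⟩
  refine ⟨⋂ N, U N, MeasurableSet.iInter hUm, ?_, ?_⟩
  · have hlim := tendsto_measure_iInter_atTop (μ := μ) (fun N => (hUm N).nullMeasurableSet) hUa
      ⟨0, measure_ne_top μ _⟩
    apply ge_of_tendsto' hlim
    intro N
    have hev := (h2.and (hS.eventually_ge_atTop (max 1 (N : ℝ)))).exists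
    obtain ⟨M, hM1, hM2⟩ := hev
    have hS1 : 1 ≤ S M := (le_max_left _ _).trans hM2
    have hSN : (N : ℝ) ≤ S M := (le_max_right _ _).trans hM2
    have hpz := pz μ (s M) E (fun i _ => hE i) (S M) A (by linarith) hA (h1 M) hM1
    have hsub : {ω | S M ≤ ∑ i ∈ s M, (E i).indicator (fun _ => (1 : ℝ)) ω} ⊆ U N := by
      intro ω hω
      rw [hU, Set.mem_iUnion]
      exact ⟨M, hSN.trans hω⟩
    calc ENNReal.ofReal (1 / A)
        ≤ ENNReal.ofReal (μ.real {ω | S M ≤ ∑ i ∈ s M, (E i).indicator (fun _ => (1 : ℝ)) ω}) :=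
          ENNReal.ofReal_le_ofReal hpz
      _ = μ {ω | S M ≤ ∑ i ∈ s M, (E i).indicator (fun _ => (1 : ℝ)) ω} := by
          rw [measureReal_def, ENNReal.ofReal_toReal (measure_ne_top μ _)]
      _ ≤ μ (U N) := measure_mono hsub
  · intro ω hω hfin
    classical
    set F := hfin.toFinset with hF
    have hω' := Set.mem_iInter.mp hω (F.card + 1)
    rw [hU, Set.mem_iUnion] at hω'
    obtain ⟨M, hM⟩ := hω'
    have h3 : f M ω ≤ F.card := by
      simp only [hf]
      calc ∑ i ∈ s M, (E i).indicator (fun _ => (1 : ℝ)) ω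
          = ∑ i ∈ (s M).filter (fun i => ω ∈ E i), (1 : ℝ) := by
            rw [Finset.sum_filter]
            apply Finset.sum_congr rfl
            intro i _
            by_cases hi : ω ∈ E i <;> simp [hi]
        _ = (((s M).filter (fun i => ω ∈ E i)).card : ℝ) := by
            rw [Finset.sum_const, nsmul_eq_mul, mul_one]
        _ ≤ F.card := by
            have : ((s M).filter (fun i => ω ∈ E i)) ⊆ F := by
              intro i hi
              rw [hF, Set.Finite.mem_toFinset]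
              exact ⟨⟨M, (Finset.mem_filter.mp hi).1⟩, (Finset.mem_filter.mp hi).2⟩
            exact_mod_cast Finset.card_le_card this
    have h4 : ((F.card + 1 : ℕ) : ℝ) ≤ f M ω := hM
    push_cast at h4
    linarith

variable {ι : Type*} [Fintype ι] [DecidableEq ι]

def EE (α : ι → ℝ) (κ : ℝ) (K k : ℕ) (i : Σ _ : PP ι, ℕ) : Set UnitAddCircle :=
  {t | ‖i.2 • t + (xf α i.1 : UnitAddCircle)‖ ≤ psi κ K k i.1}

open scoped Classical in
lemma pair_vol (α : ι → ℝ) (κ : ℝ) (hκ : 0 ≤ κ) (K k s0 M : ℕ) (hs0 : 1 ≤ s0) {p p' : PP ι}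
    (hp : p ∈ JJ ι s0 M) (hp' : p' ∈ JJ ι s0 M) {q r : ℕ}
    (hq : q ∈ Finset.Ico (Qf K p) (2 * Qf K p))
    (hr : r ∈ Finset.Ico (Qf K p') (2 * Qf K p')) (h : Rf K k p ≤ Rf K k p') :
    volume.real (EE α κ K k ⟨p, q⟩ ∩ EE α κ K k ⟨p', r⟩) ≤
      12 * psi κ K k p * psi κ K k p' +
      2 * (if badP α κ K k p p' q r then psi κ K k p' / ((r / q.gcd r : ℕ) : ℝ) else 0) +
      2 * (if degP p p' q r then psi κ K k p' / ((r / q.gcd r : ℕ) : ℝ) else 0) := by
  have hqI := Finset.mem_Ico.mp hq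
  have hrI := Finset.mem_Ico.mp hr
  have hQ : 0 < Qf K p := Qf_pos K p
  have hQ' : 0 < Qf K p' := Qf_pos K p'
  have hq0 : 0 < q := by omega
  have hr0 : 0 < r := by omega
  have hψ := psi_nonneg hs0 hκ K k hp
  have hψ' := psi_nonneg hs0 hκ K k hp'
  have hg0 : 0 < q.gcd r := Nat.gcd_pos_of_pos_left r hq0
  have hr'0 : 0 < r / q.gcd r := Nat.div_pos (Nat.le_of_dvd hr0 (Nat.gcd_dvd_right _ _)) hg0
  have hr' : (0 : ℝ) < ((r / q.gcd r : ℕ) : ℝ) := by exact_mod_cast hr'0
  have hov := overlap q r hq0 hr0 (xf α p) (xf α p') (psi κ K k p) (psi κ K k p') hψ hψ'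
  have hD := ord_gcd hs0 hκ K k hp hp' h hq hr
  have hset : EE α κ K k ⟨p, q⟩ ∩ EE α κ K k ⟨p', r⟩ =
    ({t : UnitAddCircle | ‖q • t + (xf α p : UnitAddCircle)‖ ≤ psi κ K k p} ∩
        {t : UnitAddCircle | ‖r • t + (xf α p' : UnitAddCircle)‖ ≤ psi κ K k p'}) := rfl
  rw [hset, measureReal_def]
  refine (ENNReal.toReal_mono ENNReal.ofReal_ne_top hov).trans ?_
  have hb0 : 0 ≤ (if badP α κ K k p p' q r then psi κ K k p' / ((r / q.gcd r : ℕ) : ℝ) else 0) := by
    split_ifs <;> positivity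
  have hd0 : 0 ≤ (if degP p p' q r then psi κ K k p' / ((r / q.gcd r : ℕ) : ℝ) else 0) := by
    split_ifs <;> positivity
  by_cases hif : nn (((r / q.gcd r : ℕ) : ℝ) * xf α p - ((q / q.gcd r : ℕ) : ℝ) * xf α p') ≤
          ((r / q.gcd r : ℕ) : ℝ) * psi κ K k p + ((q / q.gcd r : ℕ) : ℝ) * psi κ K k p'
  · rw [if_pos hif, ENNReal.toReal_ofReal (by positivity)]
    have hor : psi κ K k p' / ((r / q.gcd r : ℕ) : ℝ) ≤
        (if badP α κ K k p p' q r then psi κ K k p' / ((r / q.gcd r : ℕ) : ℝ) else 0) +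
        (if degP p p' q r then psi κ K k p' / ((r / q.gcd r : ℕ) : ℝ) else 0) := by
      by_cases hdeg : degP p p' q r
      · rw [if_pos hdeg]; linarith
      · have hbad : badP α κ K k p p' q r := by
          refine ⟨?_, by linarith⟩
          unfold degP at hdeg
          push Not at hdeg
          exact hdeg
        rw [if_pos hbad]; linarith
    have hle : (2 * psi κ K k p' / ((r / q.gcd r : ℕ) : ℝ)) *
          (2 * (((r / q.gcd r : ℕ) : ℝ) * psi κ K k p + ((q / q.gcd r : ℕ) : ℝ) * psi κ K k p') + 1) ≤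
        (2 * psi κ K k p' / ((r / q.gcd r : ℕ) : ℝ)) *
          (6 * (((r / q.gcd r : ℕ) : ℝ) * psi κ K k p) + 1) := by
      apply mul_le_mul_of_nonneg_left _ (by positivity)
      linarith
    have heq : (2 * psi κ K k p' / ((r / q.gcd r : ℕ) : ℝ)) *
          (6 * (((r / q.gcd r : ℕ) : ℝ) * psi κ K k p) + 1) =
        12 * psi κ K k p * psi κ K k p' + 2 * (psi κ K k p' / ((r / q.gcd r : ℕ) : ℝ)) := by
      field_simp
      ring
    linarith
  · rw [if_neg hif, ENNReal.ofReal_zero, ENNReal.toReal_zero]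
    positivity

open scoped Classical in
lemma second_moment [Nonempty ι] (α : ι → ℝ) (c : ℝ) (hc : 0 < c) (hD : Dio α c) (κ : ℝ) (hκ : 0 ≤ κ)
    (hκ1 : κ ≤ 1) (K k E B s0 M : ℕ) (hs0 : 1 ≤ s0) (hcs : 1 < c * 2 ^ s0)
    (hE : 3 * Fintype.card ι + (Fintype.card ι + k) + 3 ≤ E)
    (hB : 2 * Fintype.card ι * (E + 3) + 1 ≤ B)
    (hK : 5 + 2 * B + 2 * Fintype.card ι * (B + (Fintype.card ι + k) + 2) + 2 * Fintype.card ι ≤ K)
    (hK' : Fintype.card ι + k ≤ K) (S : ℝ) (hS : S = ∑ p ∈ JJ ι s0 M, Qf K p * psi κ K k p) :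
    ∑ i ∈ II ι K s0 M, ∑ j ∈ II ι K s0 M, volume.real (EE α κ K k i ∩ EE α κ K k j) ≤
      888 * S ^ 2 + 48 * S + 324 * (2 * K + 2) := by
  have hK0 : 0 < K := by omega
  set v : (Σ _ : PP ι, ℕ) → (Σ _ : PP ι, ℕ) → ℝ := fun i j =>
    volume.real (EE α κ K k i ∩ EE α κ K k j) with hv
  have hv0 : ∀ i j, 0 ≤ v i j := fun i j => measureReal_nonneg
  have hvsymm : ∀ i j, v i j = v j i := by
    intro i j
    simp only [hv]
    rw [Set.inter_comm]
  have h1 : ∑ i ∈ II ι K s0 M, ∑ j ∈ II ι K s0 M, v i j ≤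
      2 * ∑ i ∈ II ι K s0 M, ∑ j ∈ II ι K s0 M, (if Rf K k i.1 ≤ Rf K k j.1 then v i j else 0) := by
    have e1 : ∀ i j, v i j ≤ (if Rf K k i.1 ≤ Rf K k j.1 then v i j else 0) +
        (if Rf K k j.1 ≤ Rf K k i.1 then v j i else 0) := by
      intro i j
      rcases le_total (Rf K k i.1) (Rf K k j.1) with h | h
      · rw [if_pos h]
        have : 0 ≤ (if Rf K k j.1 ≤ Rf K k i.1 then v j i else 0) := by
          split_ifs
          · exact hv0 j i
          · exact le_refl _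
        linarith
      · rw [if_pos h, hvsymm j i]
        have : 0 ≤ (if Rf K k i.1 ≤ Rf K k j.1 then v i j else 0) := by
          split_ifs
          · exact hv0 i j
          · exact le_refl _
        linarith
    calc ∑ i ∈ II ι K s0 M, ∑ j ∈ II ι K s0 M, v i j ≤
        ∑ i ∈ II ι K s0 M, ∑ j ∈ II ι K s0 M, ((if Rf K k i.1 ≤ Rf K k j.1 then v i j else 0) +
        (if Rf K k j.1 ≤ Rf K k i.1 then v j i else 0)) :=
          Finset.sum_le_sum fun i _ => Finset.sum_le_sum fun j _ => e1 i j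
      _ = _ := by
          simp_rw [Finset.sum_add_distrib]
          rw [two_mul]
          congr 1
          rw [Finset.sum_comm]
  refine h1.trans ?_
  have h2 : ∑ i ∈ II ι K s0 M, ∑ j ∈ II ι K s0 M, (if Rf K k i.1 ≤ Rf K k j.1 then v i j else 0) ≤
      12 * S ^ 2 + 2 * (216 * S ^ 2 + 81 * (2 * K + 2) * κ) + 2 * (12 * S) := by
    have e2 : ∀ i ∈ II ι K s0 M, ∀ j ∈ II ι K s0 M, (if Rf K k i.1 ≤ Rf K k j.1 then v i j else 0) ≤
        12 * (psi κ K k i.1 * psi κ K k j.1) +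
        2 * (if Rf K k i.1 ≤ Rf K k j.1 then (if badP α κ K k i.1 j.1 i.2 j.2 then
          psi κ K k j.1 / ((j.2 / i.2.gcd j.2 : ℕ) : ℝ) else 0) else 0) +
        2 * (if Rf K k i.1 ≤ Rf K k j.1 ∧ degP i.1 j.1 i.2 j.2 then
          psi κ K k j.1 / ((j.2 / i.2.gcd j.2 : ℕ) : ℝ) else 0) := by
      rintro ⟨p, q⟩ hi ⟨p', r⟩ hj
      have hi' := Finset.mem_sigma.mp hi
      have hj' := Finset.mem_sigma.mp hj
      simp only at hi' hj' ⊢
      have hψ := psi_nonneg hs0 hκ K k hi'.1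
      have hψ' := psi_nonneg hs0 hκ K k hj'.1
      by_cases hR : Rf K k p ≤ Rf K k p'
      · rw [if_pos hR, if_pos hR]
        have := pair_vol α κ hκ K k s0 M hs0 hi'.1 hj'.1 hi'.2 hj'.2 hR
        simp only [hR, true_and]
        simp only [hv]
        linarith
      · rw [if_neg hR, if_neg hR]
        simp only [hR, false_and, if_false]
        positivity
    refine (Finset.sum_le_sum fun i hi => Finset.sum_le_sum fun j hj => e2 i hi j hj).trans ?_
    simp_rw [Finset.sum_add_distrib]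
    have hS' : ∑ i ∈ II ι K s0 M, psi κ K k i.1 = S := by
      rw [II, Finset.sum_sigma, hS]
      apply Finset.sum_congr rfl
      intro p _
      simp only [Finset.sum_const, nsmul_eq_mul, Nat.card_Ico]
      congr 2
      omega
    have t1 : ∑ i ∈ II ι K s0 M, ∑ j ∈ II ι K s0 M, 12 * (psi κ K k i.1 * psi κ K k j.1)
        = 12 * S ^ 2 := by
      rw [← hS', sq, Finset.sum_mul_sum, Finset.mul_sum]
      apply Finset.sum_congr rfl
      intro i _
      rw [Finset.mul_sum]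
    have t2 : ∑ i ∈ II ι K s0 M, ∑ j ∈ II ι K s0 M, 2 * (if Rf K k i.1 ≤ Rf K k j.1 then
        (if badP α κ K k i.1 j.1 i.2 j.2 then
          psi κ K k j.1 / ((j.2 / i.2.gcd j.2 : ℕ) : ℝ) else 0) else 0) ≤
        2 * (216 * S ^ 2 + 81 * (2 * K + 2) * κ) := by
      have := T1_total α c hc hD κ hκ hκ1 K k E B s0 M hs0 hcs hE hB hK hK'
      rw [← hS] at this
      refine le_trans (le_of_eq ?_) (mul_le_mul_of_nonneg_left this (by norm_num : (0 : ℝ) ≤ 2))
      simp_rw [II, Finset.sum_sigma, Finset.mul_sum]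
      apply Finset.sum_congr rfl
      intro p _
      rw [Finset.sum_comm]
      apply Finset.sum_congr rfl
      intro p' _
      by_cases hR : Rf K k p ≤ Rf K k p'
      · simp only [hR, if_true, Finset.mul_sum]
      · simp only [hR, if_false, mul_zero, Finset.sum_const_zero]
    have t3 : ∑ i ∈ II ι K s0 M, ∑ j ∈ II ι K s0 M, 2 * (if Rf K k i.1 ≤ Rf K k j.1 ∧
        degP i.1 j.1 i.2 j.2 then
          psi κ K k j.1 / ((j.2 / i.2.gcd j.2 : ℕ) : ℝ) else 0) ≤ 2 * (12 * S) := by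
      have := T0_total (ι := ι) κ hκ s0 M K k hs0 hK0
      rw [← hS] at this
      refine le_trans (le_of_eq ?_) (mul_le_mul_of_nonneg_left this (by norm_num : (0 : ℝ) ≤ 2))
      rw [Finset.sum_comm]
      simp_rw [II, Finset.sum_sigma, Finset.mul_sum]
    linarith
  have h3 : (324 : ℝ) * (2 * K + 2) * κ ≤ 324 * (2 * K + 2) * 1 := by gcongr
  nlinarith

end

end Pool.Agent.Lib.MP_04276e_nt
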