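import Mathlib
import Pool.Agent.Lib.MP_04276e_nt.Moment

set_option autoImplicit false

namespace Pool.Agent.Lib.MP_04276e_nt

open MeasureTheory Finset Filter

noncomputable section

variable {ι : Type*} [Fintype ι] [DecidableEq ι]

lemma sum_inv_two_pow (s : ℕ) : (s : ℝ) / 2 ≤ ∑ j ∈ Finset.Icc (1 : ℕ) (2 ^ s), (j : ℝ)⁻¹ := by
  have h1 := log_le_sum_inv (2 ^ s)
  simp_rw [one_div] at h1
  refine le_trans ?_ h1
  push_cast
  have h2 : Real.log ((2 : ℝ) ^ s) ≤ Real.log ((2 : ℝ) ^ s + 1) := by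
    apply Real.log_le_log (by positivity)
    linarith
  rw [Real.log_pow] at h2
  have h3 : (1 : ℝ) / 2 ≤ Real.log 2 := by
    have := Real.log_two_gt_d9
    linarith
  have h4 : (s : ℝ) * (1 / 2) ≤ s * Real.log 2 := by gcongr
  linarith

lemma S_lower (κ : ℝ) (hκ : 0 ≤ κ) (K s0 M : ℕ) (hs0 : 1 ≤ s0) :
    κ / 2 ^ Fintype.card ι * ∑ s ∈ Finset.Icc s0 M, (1 : ℝ) / s ≤
      ∑ p ∈ JJ ι s0 M, Qf K p * psi κ K (Fintype.card ι + 1) p := by
  rw [JJ, Finset.sum_sigma, Finset.mul_sum]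
  apply Finset.sum_le_sum
  intro s hs
  have hs' := Finset.mem_Icc.mp hs
  have hsp : (0 : ℝ) < s := by
    have : 0 < s := by omega
    exact_mod_cast this
  have h1 : ∑ b ∈ box ι s, (Qf K (⟨s, b⟩ : PP ι) : ℝ) * psi κ K (Fintype.card ι + 1) ⟨s, b⟩
      = κ / (s : ℝ) ^ (Fintype.card ι + 1) * ∑ b ∈ box ι s, ∏ l, ((b l : ℝ))⁻¹ := by
    rw [Finset.mul_sum]
    apply Finset.sum_congr rfl
    intro b _
    rw [psi_eq]
    unfold Qf
    simp only
    push_cast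
    field_simp
  rw [h1, box_sum]
  have h2 := sum_inv_two_pow s
  calc κ / 2 ^ Fintype.card ι * (1 / s)
      = κ / (s : ℝ) ^ (Fintype.card ι + 1) * ((s : ℝ) / 2) ^ Fintype.card ι := by
        rw [div_pow, pow_succ]
        field_simp
    _ ≤ _ := by gcongr

lemma harm_compare (s0 M : ℕ) :
    ∑ i ∈ Finset.range M, (1 : ℝ) / ((i : ℝ) + 1) ≤ ∑ s ∈ Finset.Icc s0 M, (1 : ℝ) / s +
      ∑ i ∈ Finset.range s0, (1 : ℝ) / ((i : ℝ) + 1) := by
  have h0 : ∀ n : ℕ, (0 : ℝ) ≤ ∑ i ∈ Finset.range n, (1 : ℝ) / ((i : ℝ) + 1) := fun n =>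
    Finset.sum_nonneg (fun i _ => by positivity)
  have h0' : ∀ n : ℕ, (0 : ℝ) ≤ ∑ s ∈ Finset.Icc s0 n, (1 : ℝ) / s := fun n =>
    Finset.sum_nonneg (fun i _ => by positivity)
  induction M with
  | zero =>
    have := h0 s0
    have := h0' 0
    simp only [Finset.range_zero, Finset.sum_empty]
    linarith
  | succ n ih =>
    by_cases h : s0 ≤ n + 1
    · rw [Finset.sum_range_succ, Finset.sum_Icc_succ_top h]
      push_cast
      linarith
    · have h1 : ∑ i ∈ Finset.range (n + 1), (1 : ℝ) / ((i : ℝ) + 1) ≤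
          ∑ i ∈ Finset.range s0, (1 : ℝ) / ((i : ℝ) + 1) := by
        apply Finset.sum_le_sum_of_subset_of_nonneg
        · intro i hi
          rw [Finset.mem_range] at hi ⊢
          omega
        · intro i _ _; positivity
      have := h0' (n + 1)
      linarith

lemma tendsto_S (κ : ℝ) (hκ : 0 < κ) (K s0 : ℕ) (hs0 : 1 ≤ s0) :
    Tendsto (fun M => ∑ p ∈ JJ ι s0 M, Qf K p * psi κ K (Fintype.card ι + 1) p) atTop atTop := by
  apply tendsto_atTop_mono (fun M => S_lower κ hκ.le K s0 M hs0)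
  apply Tendsto.const_mul_atTop (by positivity)
  have h1 := Real.tendsto_sum_range_one_div_nat_succ_atTop
  have h2 : Tendsto (fun M => (∑ i ∈ Finset.range M, (1 : ℝ) / ((i : ℝ) + 1)) +
      -(∑ i ∈ Finset.range s0, (1 : ℝ) / ((i : ℝ) + 1))) atTop atTop :=
    tendsto_atTop_add_const_right _ _ h1
  apply tendsto_atTop_mono _ h2
  intro M
  have := harm_compare s0 M
  linarith

/-- positive measure with a uniform constant -/
lemma posmeas [Nonempty ι] (α : ι → ℝ) (c : ℝ) (hc : 0 < c) (hD : Dio α c) :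
    ∃ K s0 : ℕ, 0 < K ∧ 1 ≤ s0 ∧ ∀ κ : ℝ, 0 < κ → κ ≤ 1 / 2 →
      ∃ W : Set UnitAddCircle, MeasurableSet W ∧ ENNReal.ofReal (1 / 1000) ≤ volume W ∧
      ∀ u ∈ W, Set.Infinite {i : Σ _ : PP ι, ℕ | (s0 ≤ i.1.1 ∧ (∀ l, 1 ≤ i.1.2 l ∧ i.1.2 l ≤ 2 ^ i.1.1)
        ∧ 2 ^ (K * i.1.1) ≤ i.2 ∧ i.2 < 2 * 2 ^ (K * i.1.1)) ∧
        ‖i.2 • u + (xf α i.1 : UnitAddCircle)‖ ≤ psi κ K (Fintype.card ι + 1) i.1} := by
  set d := Fintype.card ι with hd
  set k := d + 1 with hk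
  set E := 3 * d + (d + k) + 3 with hE
  set B := 2 * d * (E + 3) + 1 with hB
  set K := 5 + 2 * B + 2 * d * (B + (d + k) + 2) + 2 * d + (d + k) with hK
  obtain ⟨s1, hs1⟩ : ∃ s1 : ℕ, 1 / c < 2 ^ s1 := pow_unbounded_of_one_lt _ (by norm_num)
  set s0 := s1 + 1 with hs0
  have hs01 : 1 ≤ s0 := by omega
  have hcs : 1 < c * 2 ^ s0 := by
    rw [div_lt_iff₀ hc] at hs1
    rw [hs0, pow_succ]
    have : (0 : ℝ) < 2 ^ s1 := by positivity
    nlinarith
  refine ⟨K, s0, by omega, hs01, ?_⟩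
  intro κ hκ hκ2
  have hκ1 : κ ≤ 1 := by linarith
  set S : ℕ → ℝ := fun M => ∑ p ∈ JJ ι s0 M, Qf K p * psi κ K k p with hS
  have hStend : Tendsto S atTop atTop := tendsto_S κ hκ K s0 hs01
  have hmono : Monotone (fun M => II ι K s0 M) := by
    intro M M' hMM i hi
    have hi' := Finset.mem_sigma.mp hi
    have hj := Finset.mem_sigma.mp hi'.1
    have hj' := Finset.mem_Icc.mp hj.1
    apply Finset.mem_sigma.mpr
    refine ⟨Finset.mem_sigma.mpr ⟨Finset.mem_Icc.mpr ⟨hj'.1, hj'.2.trans hMM⟩, hj.2⟩, hi'.2⟩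
  have hEmeas : ∀ i, MeasurableSet (EE α κ K k i) := fun i => measurableSet_single _ _ _
  have h1 : ∀ M, 2 * S M ≤ ∑ i ∈ II ι K s0 M, (volume : Measure UnitAddCircle).real (EE α κ K k i) := by
    intro M
    rw [II, Finset.sum_sigma, hS, Finset.mul_sum]
    apply Finset.sum_le_sum
    intro p hp
    have hQ : 0 < Qf K p := Qf_pos K p
    have hψ := psi_nonneg hs01 hκ.le K k hp
    have hψ2 : psi κ K k p ≤ 1 / 2 := by
      refine (psi_le hs01 hκ.le K k hp).trans ?_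
      have : (1 : ℝ) ≤ Qf K p := by exact_mod_cast hQ
      calc κ / Qf K p ≤ κ / 1 := by gcongr
        _ ≤ 1 / 2 := by linarith
    have h2 : ∀ q ∈ Finset.Ico (Qf K p) (2 * Qf K p),
        (volume : Measure UnitAddCircle).real (EE α κ K k ⟨p, q⟩) = 2 * psi κ K k p := by
      intro q hq
      have hq' := Finset.mem_Ico.mp hq
      have := volume_single q (by omega) (xf α p) (psi κ K k p) hψ2
      rw [measureReal_def]
      change (volume {t : UnitAddCircle | ‖q • t + (xf α p : UnitAddCircle)‖ ≤ psi κ K k p}).toReal = _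
      rw [this, ENNReal.toReal_ofReal (by linarith)]
    rw [Finset.sum_congr rfl h2, Finset.sum_const, nsmul_eq_mul, Nat.card_Ico]
    have : 2 * Qf K p - Qf K p = Qf K p := by omega
    rw [this]
    linarith
  have h2 : ∀ᶠ M in atTop, ∑ i ∈ II ι K s0 M, ∑ j ∈ II ι K s0 M,
      (volume : Measure UnitAddCircle).real (EE α κ K k i ∩ EE α κ K k j) ≤ 1000 * (S M) ^ 2 := by
    filter_upwards [hStend.eventually_ge_atTop (1 + 324 * (2 * K + 2))] with M hM
    have h3 := second_moment α c hc hD κ hκ.le hκ1 K k E B s0 M hs01 hcs (le_refl _) (le_refl _)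
      (by rw [← hd, hK]; omega) (by rw [← hd, hK]; omega) (S M) rfl
    refine h3.trans ?_
    have hK0 : (0 : ℝ) ≤ 324 * (2 * K + 2) := by positivity
    have hS1 : 1 ≤ S M := by linarith
    nlinarith
  have hprob : IsProbabilityMeasure (volume : Measure UnitAddCircle) :=
    ⟨by rw [AddCircle.measure_univ]; simp⟩
  obtain ⟨W, hWm, hWv, hWi⟩ := limsup_pz (volume : Measure UnitAddCircle) (fun M => II ι K s0 M) hmono
    (fun i => EE α κ K k i) hEmeas S 1000 (by norm_num) hStend h1 h2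
  refine ⟨W, hWm, hWv, ?_⟩
  intro u hu
  refine (hWi u hu).mono ?_
  rintro i ⟨⟨M, hM⟩, hi⟩
  have hi' := Finset.mem_sigma.mp hM
  have hj := mem_JJ.mp hi'.1
  have hj' := Finset.mem_Ico.mp hi'.2
  exact ⟨⟨hj.1.1, hj.2, hj'.1, hj'.2⟩, hi⟩

end

end Pool.Agent.Lib.MP_04276e_nt
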