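import Mathlib
import Pool.Agent.Lib.MP_04276e_nt.Final

set_option autoImplicit false

namespace Pool.Agent.Lib.MP_04276e_nt

open MeasureTheory Finset Filter

noncomputable section

/-- scaling and periodicity -/
lemma vol_scaled (P : ℕ) (hP : 0 < P) (W : Set UnitAddCircle) (hW : MeasurableSet W) (a : ℝ) :
    volume (Set.Ioc a (a + 1 / P) ∩ {t : ℝ | (((P : ℝ) * t : ℝ) : UnitAddCircle) ∈ W}) =
      ENNReal.ofReal (1 / P) * volume W := by
  have hP' : (0 : ℝ) < P := by exact_mod_cast hP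
  have h1 : Set.Ioc a (a + 1 / P) ∩ {t : ℝ | (((P : ℝ) * t : ℝ) : UnitAddCircle) ∈ W} =
      (fun t => (P : ℝ) * t) ⁻¹' (Set.Ioc (P * a) (P * a + 1) ∩
        {w : ℝ | (w : UnitAddCircle) ∈ W}) := by
    ext t
    simp only [Set.mem_inter_iff, Set.mem_Ioc, Set.mem_ofPred_eq, Set.mem_preimage]
    constructor
    · rintro ⟨⟨h1, h2⟩, h3⟩
      refine ⟨⟨by nlinarith, ?_⟩, h3⟩
      have : (P : ℝ) * t ≤ P * (a + 1 / P) := by gcongr
      have e : (P : ℝ) * (a + 1 / P) = P * a + 1 := by field_simp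
      linarith
    · rintro ⟨⟨h1, h2⟩, h3⟩
      refine ⟨⟨lt_of_mul_lt_mul_left h1 hP'.le, ?_⟩, h3⟩
      have e : (P : ℝ) * (a + 1 / P) = P * a + 1 := by field_simp
      exact le_of_mul_le_mul_left (by linarith) hP'
  rw [h1, Real.volume_preimage_mul_left hP'.ne']
  have h2 := (AddCircle.measurePreserving_mk (1 : ℝ) (P * a)).measure_preimage hW.nullMeasurableSet
  have hWr : MeasurableSet {w : ℝ | (w : UnitAddCircle) ∈ W} :=
    (AddCircle.measurePreserving_mk (1 : ℝ) (P * a)).measurable hW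
  have h3 : volume (Set.Ioc (P * a) (P * a + 1) ∩ {w : ℝ | (w : UnitAddCircle) ∈ W}) = volume W := by
    rw [← h2, Set.inter_comm]
    exact (Measure.restrict_apply hWr).symm
  rw [h3, abs_of_pos (by positivity), one_div]

/-- Lebesgue density argument -/
lemma ae_of_scaled (Good : ℝ → Prop) (c : ℝ) (hc : 0 < c) (hc1 : c < 1)
    (h : ∀ P : ℕ, 0 < P → ∃ W : Set UnitAddCircle, MeasurableSet W ∧ ENNReal.ofReal c ≤ volume W ∧
      ∀ t : ℝ, (((P : ℝ) * t : ℝ) : UnitAddCircle) ∈ W → Good t) :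
    ∀ᵐ t : ℝ ∂volume, Good t := by
  set V : Set ℝ := {t | ¬ Good t} with hV
  have hkey : ∀ x : ℝ, ∀ P : ℕ, 0 < P →
      volume (V ∩ Metric.closedBall x (1 / P)) / volume (Metric.closedBall x (1 / (P : ℝ))) ≤
        ENNReal.ofReal (1 - c / 2) := by
    intro x P hP
    have hP' : (0 : ℝ) < P := by exact_mod_cast hP
    obtain ⟨W, hWm, hWv, hWG⟩ := h P hP
    set Mp : Set ℝ := {t : ℝ | (((P : ℝ) * t : ℝ) : UnitAddCircle) ∈ W} with hMp
    have hMm : MeasurableSet Mp := by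
      have h1 : Measurable (fun t : ℝ => (((P : ℝ) * t : ℝ) : UnitAddCircle)) := by
        have := (AddCircle.measurePreserving_mk (1 : ℝ) 0).measurable
        exact this.comp (measurable_const_mul _)
      exact h1 hWm
    have hvb : volume (Metric.closedBall x (1 / (P : ℝ))) = ENNReal.ofReal (2 / P) := by
      rw [Real.volume_closedBall]
      congr 1
      ring
    have hsub1 : Set.Ioc (x - 1 / P) (x - 1 / P + 1 / P) ∩ Mp ⊆ Metric.closedBall x (1 / (P : ℝ)) := by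
      rintro t ⟨⟨h1, h2⟩, _⟩
      rw [Metric.mem_closedBall, Real.dist_eq, abs_le]
      have h3 : (0 : ℝ) < 1 / P := by positivity
      constructor <;> linarith
    have hsub2 : V ∩ Metric.closedBall x (1 / P) ⊆ Metric.closedBall x (1 / (P : ℝ)) \
        (Set.Ioc (x - 1 / P) (x - 1 / P + 1 / P) ∩ Mp) := by
      rintro t ⟨h1, h2⟩
      refine ⟨h2, ?_⟩
      rintro ⟨_, h3⟩
      exact h1 (hWG t h3)
    have hvs := vol_scaled P hP W hWm (x - 1 / P)
    have hlow : ENNReal.ofReal (c / P) ≤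
        volume (Set.Ioc (x - 1 / P) (x - 1 / P + 1 / P) ∩ Mp) := by
      rw [hvs]
      calc ENNReal.ofReal (c / P) = ENNReal.ofReal (1 / P) * ENNReal.ofReal c := by
            rw [← ENNReal.ofReal_mul (by positivity)]
            congr 1
            ring
        _ ≤ _ := by gcongr
    have hfin : volume (Set.Ioc (x - 1 / P) (x - 1 / P + 1 / P) ∩ Mp) ≠ ⊤ := by
      apply ne_top_of_le_ne_top _ (measure_mono hsub1)
      rw [hvb]
      exact ENNReal.ofReal_ne_top
    have hup : volume (V ∩ Metric.closedBall x (1 / P)) ≤ ENNReal.ofReal (2 / P - c / P) := by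
      refine (measure_mono hsub2).trans ?_
      rw [measure_sdiff hsub1 (measurableSet_Ioc.inter hMm).nullMeasurableSet hfin, hvb,
        ENNReal.ofReal_sub _ (by positivity)]
      exact tsub_le_tsub_left hlow _
    rw [hvb]
    apply ENNReal.div_le_of_le_mul
    rw [← ENNReal.ofReal_mul (by linarith)]
    refine hup.trans (le_of_eq ?_)
    congr 1
    field_simp
  have hdens := Besicovitch.ae_tendsto_measure_inter_div (volume : Measure ℝ) V
  have hfalse : ∀ᵐ x ∂((volume : Measure ℝ).restrict V), False := by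
    filter_upwards [hdens] with x hx
    have hseq : Tendsto (fun P : ℕ => 1 / ((P : ℝ) + 1)) atTop (nhdsWithin 0 (Set.Ioi 0)) := by
      rw [tendsto_nhdsWithin_iff]
      refine ⟨tendsto_one_div_add_atTop_nhds_zero_nat, ?_⟩
      filter_upwards with P
      have : (0 : ℝ) < 1 / ((P : ℝ) + 1) := by positivity
      exact this
    have h1 := hx.comp hseq
    have h2 : (1 : ENNReal) ≤ ENNReal.ofReal (1 - c / 2) := by
      apply le_of_tendsto' h1
      intro P
      have := hkey x (P + 1) (by omega)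
      push_cast at this
      exact this
    have h3 : ENNReal.ofReal (1 - c / 2) < 1 := by
      rw [← ENNReal.ofReal_one]
      exact (ENNReal.ofReal_lt_ofReal_iff (by norm_num)).mpr (by linarith)
    exact absurd h2 (not_le.mpr h3)
  rw [ae_iff]
  simp only [not_false_eq_true, Set.ofPred_true, ae_iff] at hfalse
  have : volume V = 0 := by
    rw [Measure.restrict_apply_univ] at hfalse
    exact hfalse
  exact this

variable {ι : Type*} [Fintype ι]

lemma exists_pos_lower {β : Type*} (s : Set β) (hs : s.Finite) (f : β → ℝ) (hf : ∀ x ∈ s, 0 < f x) :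
    ∃ c : ℝ, 0 < c ∧ ∀ x ∈ s, c ≤ f x := by
  induction s, hs using Set.Finite.induction_on with
  | empty => exact ⟨1, one_pos, by simp⟩
  | @insert a s _ _ ih =>
    obtain ⟨c, hc, h⟩ := ih (fun x hx => hf x (Set.mem_insert_of_mem a hx))
    refine ⟨min c (f a), lt_min hc (hf a (Set.mem_insert a s)), ?_⟩
    intro x hx
    rcases Set.mem_insert_iff.mp hx with rfl | hx
    · exact min_le_right _ _
    · exact (min_le_left _ _).trans (h x hx)

lemma HH_ge_one (v : ι → ℤ) : 1 ≤ ∏ i, max |(v i : ℝ)| 2 := by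
  have : ∏ _i : ι, (1 : ℝ) ≤ ∏ i, max |(v i : ℝ)| 2 := by
    apply Finset.prod_le_prod
    · intro i _; norm_num
    · intro i _
      have := le_max_right |(v i : ℝ)| 2
      linarith
  simpa using this

lemma exists_dio (α : ι → ℝ) (k : ℕ)
    (hfin : {v : ι → ℤ | nn (∑ i, (v i : ℝ) * α i) <
      1 / ((2 * ∏ i, max |(v i : ℝ)| 2) * (Real.log (2 * ∏ i, max |(v i : ℝ)| 2)) ^ k)}.Finite) :
    ∃ c : ℝ, 0 < c ∧ Dio α c := by
  set Bad := {v : ι → ℤ | nn (∑ i, (v i : ℝ) * α i) <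
      1 / ((2 * ∏ i, max |(v i : ℝ)| 2) * (Real.log (2 * ∏ i, max |(v i : ℝ)| 2)) ^ k)} with hBad
  have hpos : ∀ v ∈ Bad \ {0}, 0 < nn (∑ i, (v i : ℝ) * α i) * (∏ i, max |(v i : ℝ)| 2) ^ 2 := by
    rintro v ⟨_, hv0⟩
    have hH := HH_ge_one v
    rcases (nn_nonneg (∑ i, (v i : ℝ) * α i)).lt_or_eq with h | h
    · positivity
    · exfalso
      -- all multiples are in Bad
      have hz : ∑ i, (v i : ℝ) * α i = round (∑ i, (v i : ℝ) * α i) := by
        unfold nn at h
        have := abs_eq_zero.mp h.symm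
        linarith
      obtain ⟨l, hl⟩ : ∃ l, v l ≠ 0 := by
        by_contra hcon
        push Not at hcon
        exact hv0 (by funext l; exact hcon l)
      have hinj : Function.Injective (fun j : ℤ => (fun i => j * v i : ι → ℤ)) := by
        intro j j' hjj
        have := congrFun hjj l
        exact mul_right_cancel₀ hl this
      have hsub : Set.range (fun j : ℤ => (fun i => j * v i : ι → ℤ)) ⊆ Bad := by
        rintro _ ⟨j, rfl⟩
        have e1 : ∑ i, (((j * v i : ℤ)) : ℝ) * α i = ((j * round (∑ i, (v i : ℝ) * α i) : ℤ) : ℝ) := by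
          push_cast
          rw [← hz, Finset.mul_sum]
          apply Finset.sum_congr rfl
          intro i _
          ring
        have hH' := HH_ge_one (fun i => j * v i)
        have hlog : 0 < Real.log (2 * ∏ i, max |(((j * v i : ℤ)) : ℝ)| 2) := by
          apply Real.log_pos
          linarith
        change nn (∑ i, (((j * v i : ℤ)) : ℝ) * α i) < _
        have h0 : nn (∑ i, (((j * v i : ℤ)) : ℝ) * α i) ≤ 0 := by
          rw [nn_le_iff]
          refine ⟨j * round (∑ i, (v i : ℝ) * α i), ?_⟩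
          rw [e1, sub_self, abs_zero]
        refine h0.trans_lt ?_
        positivity
      exact (Set.infinite_range_of_injective hinj).mono hsub hfin
  obtain ⟨c1, hc1, h1⟩ := exists_pos_lower (Bad \ {0}) (hfin.subset Set.sdiff_subset)
    (fun v => nn (∑ i, (v i : ℝ) * α i) * (∏ i, max |(v i : ℝ)| 2) ^ 2) hpos
  refine ⟨min c1 (1 / (4 * k.factorial)), by positivity, ?_⟩
  intro v hv
  by_cases hvB : v ∈ Bad
  · exact (min_le_left _ _).trans (h1 v ⟨hvB, hv⟩)
  · refine (min_le_right _ _).trans ?_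
    have h2 : 1 / ((2 * ∏ i, max |(v i : ℝ)| 2) * (Real.log (2 * ∏ i, max |(v i : ℝ)| 2)) ^ k) ≤
        nn (∑ i, (v i : ℝ) * α i) := not_lt.mp hvB
    set H := ∏ i, max |(v i : ℝ)| 2 with hH
    have hH1 : 1 ≤ H := HH_ge_one v
    have hlog : 0 < Real.log (2 * H) := Real.log_pos (by linarith)
    have h3 := Real.pow_div_factorial_le_exp (Real.log (2 * H)) hlog.le k
    rw [Real.exp_log (by linarith)] at h3
    have hfac : (0 : ℝ) < k.factorial := by exact_mod_cast Nat.factorial_pos k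
    rw [div_le_iff₀ hfac] at h3
    calc 1 / (4 * (k.factorial : ℝ)) = 1 / ((2 * H) * (2 * H * k.factorial)) * H ^ 2 := by
          field_simp
          ring
      _ ≤ 1 / ((2 * H) * (Real.log (2 * H)) ^ k) * H ^ 2 := by gcongr
      _ ≤ nn (∑ i, (v i : ℝ) * α i) * H ^ 2 := by gcongr

lemma H_bound (m : ℕ) (K s P : ℕ) (hs : 1 ≤ s) (hP : 0 < P) (a : Fin (m + 1) → ℕ)
    (ha : ∀ l, 1 ≤ a l ∧ a l ≤ 2 ^ s) (q : ℕ) (hq0 : 0 < q) (hq : q < 2 * 2 ^ (K * s)) :
    (∏ i, max |((a i : ℤ) : ℝ)| 2) * max |((P * q : ℕ) : ℝ)| 2 *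
      (Real.log ((∏ i, max |((a i : ℤ) : ℝ)| 2) * max |((P * q : ℕ) : ℝ)| 2)) ^ (m + 2) ≤
    (2 ^ (m + 2) * P * ((2 * (m + 1) + 1 + K + P : ℕ) : ℝ) ^ (m + 2)) *
      ((2 : ℝ) ^ (K * s) * ((∏ l, (a l : ℝ)) * (s : ℝ) ^ (m + 2))) := by
  have hP' : (1 : ℝ) ≤ P := by exact_mod_cast hP
  have hq1 : (1 : ℝ) ≤ q := by exact_mod_cast hq0
  have hA : ∏ i, max |((a i : ℤ) : ℝ)| 2 ≤ 2 ^ (m + 1) * ∏ l, (a l : ℝ) := by
    calc ∏ i, max |((a i : ℤ) : ℝ)| 2 ≤ ∏ i, (2 * (a i : ℝ)) := by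
          apply Finset.prod_le_prod
          · intro i _; positivity
          · intro i _
            have h1 : (1 : ℝ) ≤ a i := by exact_mod_cast (ha i).1
            rw [Int.cast_natCast, abs_of_nonneg (by linarith)]
            apply max_le <;> linarith
      _ = 2 ^ (m + 1) * ∏ l, (a l : ℝ) := by
          rw [Finset.prod_mul_distrib, Finset.prod_const, Finset.card_univ, Fintype.card_fin]
  have hB : max |((P * q : ℕ) : ℝ)| 2 ≤ 2 * P * 2 ^ (K * s) := by
    have h1 : ((P * q : ℕ) : ℝ) ≤ 2 * P * 2 ^ (K * s) := by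
      have : P * q ≤ 2 * P * 2 ^ (K * s) := by
        calc P * q ≤ P * (2 * 2 ^ (K * s)) := Nat.mul_le_mul_left _ hq.le
          _ = _ := by ring
      exact_mod_cast this
    rw [abs_of_nonneg (Nat.cast_nonneg _)]
    apply max_le h1
    have h2 : (1 : ℝ) ≤ 2 ^ (K * s) := one_le_pow₀ (by norm_num)
    nlinarith
  have hA0 : 1 ≤ ∏ i, max |((a i : ℤ) : ℝ)| 2 := HH_ge_one (fun i => (a i : ℤ))
  have hB0 : 2 ≤ max |((P * q : ℕ) : ℝ)| 2 := le_max_right _ _
  have hprod1 : 1 ≤ ∏ l, (a l : ℝ) := by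
    have : ∏ _l : Fin (m + 1), (1 : ℝ) ≤ ∏ l, (a l : ℝ) := by
      apply Finset.prod_le_prod
      · intro i _; norm_num
      · intro i _
        exact_mod_cast (ha i).1
    simpa using this
  have hprod2 : ∏ l, (a l : ℝ) ≤ 2 ^ ((m + 1) * s) := by
    calc ∏ l, (a l : ℝ) ≤ ∏ _l : Fin (m + 1), (2 : ℝ) ^ s := by
          apply Finset.prod_le_prod
          · intro i _; positivity
          · intro i _
            exact_mod_cast (ha i).2
      _ = _ := by
          rw [Finset.prod_const, Finset.card_univ, Fintype.card_fin, ← pow_mul, mul_comm]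
  have hAB : (∏ i, max |((a i : ℤ) : ℝ)| 2) * max |((P * q : ℕ) : ℝ)| 2 ≤
      2 ^ (m + 2) * P * (2 ^ (K * s) * ∏ l, (a l : ℝ)) := by
    calc _ ≤ (2 ^ (m + 1) * ∏ l, (a l : ℝ)) * (2 * P * 2 ^ (K * s)) := by gcongr
      _ = _ := by ring
  have hAB1 : 1 ≤ (∏ i, max |((a i : ℤ) : ℝ)| 2) * max |((P * q : ℕ) : ℝ)| 2 := by nlinarith
  have hlog0 : 0 ≤ Real.log ((∏ i, max |((a i : ℤ) : ℝ)| 2) * max |((P * q : ℕ) : ℝ)| 2) :=
    Real.log_nonneg hAB1
  have hlog : Real.log ((∏ i, max |((a i : ℤ) : ℝ)| 2) * max |((P * q : ℕ) : ℝ)| 2) ≤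
      ((2 * (m + 1) + 1 + K + P : ℕ) : ℝ) * s := by
    have h1 : (∏ i, max |((a i : ℤ) : ℝ)| 2) * max |((P * q : ℕ) : ℝ)| 2 ≤
        2 ^ ((m + 2) + P + K * s + (m + 1) * s) := by
      refine hAB.trans ?_
      have hP2 : (P : ℝ) ≤ 2 ^ P := by exact_mod_cast (Nat.lt_two_pow_self (n := P)).le
      calc _ ≤ (2 : ℝ) ^ (m + 2) * 2 ^ P * (2 ^ (K * s) * 2 ^ ((m + 1) * s)) := by gcongr
        _ = _ := by rw [← pow_add, ← pow_add, ← pow_add]; ring_nf
    have h2 := Real.log_le_log (by linarith) h1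
    rw [Real.log_pow] at h2
    have h3 : Real.log 2 ≤ 1 := by
      have := Real.log_two_lt_d9
      linarith
    have h4 : ((m + 2) + P + K * s + (m + 1) * s : ℕ) ≤ (2 * (m + 1) + 1 + K + P) * s := by
      nlinarith
    calc _ ≤ (((m + 2) + P + K * s + (m + 1) * s : ℕ) : ℝ) * Real.log 2 := h2
      _ ≤ (((m + 2) + P + K * s + (m + 1) * s : ℕ) : ℝ) * 1 := by gcongr
      _ ≤ _ := by
          rw [mul_one]
          exact_mod_cast h4
  calc _ ≤ (2 ^ (m + 2) * P * (2 ^ (K * s) * ∏ l, (a l : ℝ))) *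
        (((2 * (m + 1) + 1 + K + P : ℕ) : ℝ) * s) ^ (m + 2) := by
        apply mul_le_mul hAB (pow_le_pow_left₀ hlog0 hlog _) (by positivity) (by positivity)
    _ = _ := by rw [mul_pow]; ring

theorem main (m : ℕ) (α : Fin (m + 1) → ℝ) :
      ∀ᵐ t : ℝ ∂MeasureTheory.volume,
        Set.Infinite {n : Fin (m + 2) → ℤ |
          |(∑ i : Fin (m + 1), (n (Fin.castSucc i) : ℝ) * α i
              + (n (Fin.last (m + 1)) : ℝ) * t)
            - (round (∑ i : Fin (m + 1), (n (Fin.castSucc i) : ℝ) * α i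
              + (n (Fin.last (m + 1)) : ℝ) * t) : ℝ)|
          < 1 / ((∏ i : Fin (m + 2), max |(n i : ℝ)| 2)
              * (Real.log (∏ i : Fin (m + 2), max |(n i : ℝ)| 2)) ^ (m + 2))} := by
  by_cases hfin : {v : Fin (m + 1) → ℤ | nn (∑ i, (v i : ℝ) * α i) <
      1 / ((2 * ∏ i, max |(v i : ℝ)| 2) *
        (Real.log (2 * ∏ i, max |(v i : ℝ)| 2)) ^ (m + 2))}.Finite
  swap
  · -- infinitely many solutions with last coordinate zero
    apply Filter.Eventually.of_forall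
    intro t
    have hinj : Function.Injective (fun v : Fin (m + 1) → ℤ => (Fin.snoc v 0 : Fin (m + 2) → ℤ)) := by
      intro v w hvw
      funext i
      have := congrFun hvw (Fin.castSucc i)
      simpa using this
    have hinf := Set.Infinite.image (s := {v : Fin (m + 1) → ℤ | nn (∑ i, (v i : ℝ) * α i) <
      1 / ((2 * ∏ i, max |(v i : ℝ)| 2) *
        (Real.log (2 * ∏ i, max |(v i : ℝ)| 2)) ^ (m + 2))}) hinj.injOn hfin
    refine hinf.mono ?_
    rintro _ ⟨v, hv, rfl⟩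
    have hv' : nn (∑ i, (v i : ℝ) * α i) <
      1 / ((2 * ∏ i, max |(v i : ℝ)| 2) *
        (Real.log (2 * ∏ i, max |(v i : ℝ)| 2)) ^ (m + 2)) := hv
    rw [Set.mem_ofPred_eq, Fin.prod_univ_castSucc]
    simp only [Fin.snoc_castSucc, Fin.snoc_last, Int.cast_zero, zero_mul, add_zero, abs_zero]
    have e : max (0 : ℝ) 2 = 2 := max_eq_right (by norm_num)
    rw [e, mul_comm _ (2 : ℝ)]
    exact hv'
  · obtain ⟨c, hc, hD⟩ := exists_dio α (m + 2) hfin
    obtain ⟨K, s0, hK0, hs0, hmain⟩ := posmeas α c hc hD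
    apply ae_of_scaled _ (1 / 1000) (by norm_num) (by norm_num)
    intro P hP
    have hP' : (1 : ℝ) ≤ P := by exact_mod_cast hP
    set C : ℝ := 2 ^ (m + 2) * P * ((2 * (m + 1) + 1 + K + P : ℕ) : ℝ) ^ (m + 2) with hC
    have hC1 : 1 ≤ C := by
      have h1 : (1 : ℝ) ≤ 2 ^ (m + 2) := one_le_pow₀ (by norm_num)
      have h2 : (1 : ℝ) ≤ ((2 * (m + 1) + 1 + K + P : ℕ) : ℝ) ^ (m + 2) := by
        apply one_le_pow₀
        have : 1 ≤ 2 * (m + 1) + 1 + K + P := by omega
        exact_mod_cast this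
      have h3 : (1 : ℝ) ≤ 2 ^ (m + 2) * P := by nlinarith
      rw [hC]
      nlinarith
    obtain ⟨W, hWm, hWv, hWi⟩ := hmain (1 / (2 * C)) (by positivity) (by
      rw [div_le_div_iff₀ (by positivity) (by norm_num)]
      linarith)
    refine ⟨W, hWm, hWv, ?_⟩
    intro t ht
    have hinf := hWi _ ht
    let Φ : (Σ _ : PP (Fin (m + 1)), ℕ) → (Fin (m + 2) → ℤ) := fun i =>
      (Fin.snoc (fun l => (i.1.2 l : ℤ)) ((P * i.2 : ℕ) : ℤ) : Fin (m + 2) → ℤ)
    have hinf' := Set.Infinite.image (f := Φ) (s := {i : Σ _ : PP (Fin (m + 1)), ℕ |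
        (s0 ≤ i.1.1 ∧ (∀ l, 1 ≤ i.1.2 l ∧ i.1.2 l ≤ 2 ^ i.1.1)
        ∧ 2 ^ (K * i.1.1) ≤ i.2 ∧ i.2 < 2 * 2 ^ (K * i.1.1)) ∧
        ‖i.2 • (((P : ℝ) * t : ℝ) : UnitAddCircle) + (xf α i.1 : UnitAddCircle)‖ ≤
          psi (1 / (2 * C)) K (Fintype.card (Fin (m + 1)) + 1) i.1}) (by
      rintro ⟨⟨s1, a1⟩, q1⟩ h1 ⟨⟨s2, a2⟩, q2⟩ h2 heq
      simp only [Set.mem_ofPred_eq] at h1 h2
      have haa : a1 = a2 := by
        funext l
        have := congrFun heq (Fin.castSucc l)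
        simp only [Φ, Fin.snoc_castSucc] at this
        exact_mod_cast this
      have hqq : q1 = q2 := by
        have := congrFun heq (Fin.last (m + 1))
        simp only [Φ, Fin.snoc_last] at this
        have h3 : P * q1 = P * q2 := by exact_mod_cast this
        exact Nat.eq_of_mul_eq_mul_left hP h3
      subst haa
      subst hqq
      have e1 : 2 ^ (K * s1) < 2 ^ (K * s2 + 1) := by
        calc 2 ^ (K * s1) ≤ q1 := h1.1.2.2.1
          _ < 2 * 2 ^ (K * s2) := h2.1.2.2.2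
          _ = _ := by ring
      have e2 : 2 ^ (K * s2) < 2 ^ (K * s1 + 1) := by
        calc 2 ^ (K * s2) ≤ q1 := h2.1.2.2.1
          _ < 2 * 2 ^ (K * s1) := h1.1.2.2.2
          _ = _ := by ring
      have e3 := (Nat.pow_lt_pow_iff_right (by norm_num)).mp e1
      have e4 := (Nat.pow_lt_pow_iff_right (by norm_num)).mp e2
      have e5 : K * s1 = K * s2 := by omega
      have e6 : s1 = s2 := Nat.eq_of_mul_eq_mul_left hK0 e5
      subst e6
      rfl) hinf
    refine hinf'.mono ?_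
    rintro _ ⟨⟨⟨s, a⟩, q⟩, ⟨⟨h1, h2, h3, h4⟩, h5⟩, rfl⟩
    simp only at h1 h2 h3 h4 h5
    have hs1 : 1 ≤ s := by omega
    have hq0 : 0 < q := lt_of_lt_of_le (by positivity) h3
    have hHb := H_bound m K s P hs1 hP a h2 q hq0 h4
    have hprod1 : 1 ≤ ∏ l, (a l : ℝ) := by
      have : ∏ _l : Fin (m + 1), (1 : ℝ) ≤ ∏ l, (a l : ℝ) := by
        apply Finset.prod_le_prod
        · intro i _; norm_num
        · intro i _
          exact_mod_cast (h2 i).1
      simpa using this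
    have hspos : (0 : ℝ) < s := by exact_mod_cast hs1
    set D : ℝ := (2 : ℝ) ^ (K * s) * ((∏ l, (a l : ℝ)) * (s : ℝ) ^ (m + 2)) with hDd
    have hD0 : 0 < D := by positivity
    have hpsi : psi (1 / (2 * C)) K (Fintype.card (Fin (m + 1)) + 1) (⟨s, a⟩ : PP (Fin (m + 1)))
        = 1 / (2 * C) / D := by
      unfold psi Qf wt
      simp only [Fintype.card_fin, hDd]
      push_cast
      rfl
    rw [hpsi] at h5
    have e1 : q • (((P : ℝ) * t : ℝ) : UnitAddCircle) +
        (xf α (⟨s, a⟩ : PP (Fin (m + 1))) : UnitAddCircle) =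
        ((∑ i : Fin (m + 1), ((a i : ℤ) : ℝ) * α i + ((((P * q : ℕ) : ℤ)) : ℝ) * t : ℝ) : UnitAddCircle) := by
      have e0 : (∑ i : Fin (m + 1), ((a i : ℤ) : ℝ) * α i + ((((P * q : ℕ) : ℤ)) : ℝ) * t : ℝ) =
          (q : ℝ) * ((P : ℝ) * t) + xf α (⟨s, a⟩ : PP (Fin (m + 1))) := by
        unfold xf
        push_cast
        ring
      rw [e0, AddCircle.coe_add]
      congr 1
      simp
    rw [e1, ← nn_eq_norm] at h5
    rw [Set.mem_ofPred_eq, Fin.prod_univ_castSucc]
    simp only [Φ, Fin.snoc_castSucc, Fin.snoc_last]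
    refine lt_of_le_of_lt h5 ?_
    have hA0 : 1 ≤ ∏ i, max |((a i : ℤ) : ℝ)| 2 := HH_ge_one (fun i => (a i : ℤ))
    have hB0 : 2 ≤ max |((((P * q : ℕ) : ℤ)) : ℝ)| 2 := le_max_right _ _
    have hAB1 : 1 < (∏ i, max |((a i : ℤ) : ℝ)| 2) * max |((((P * q : ℕ) : ℤ)) : ℝ)| 2 := by nlinarith
    have hlog0 := Real.log_pos hAB1
    have hcast : max |((((P * q : ℕ) : ℤ)) : ℝ)| 2 = max |((P * q : ℕ) : ℝ)| 2 := by
      rw [Int.cast_natCast]
    rw [← hcast] at hHb
    have hpos : 0 < (∏ i, max |((a i : ℤ) : ℝ)| 2) * max |((((P * q : ℕ) : ℤ)) : ℝ)| 2 *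
        (Real.log ((∏ i, max |((a i : ℤ) : ℝ)| 2) * max |((((P * q : ℕ) : ℤ)) : ℝ)| 2)) ^ (m + 2) := by
      positivity
    calc 1 / (2 * C) / D = 1 / (2 * (C * D)) := by
          rw [div_div]
          ring_nf
      _ < 1 / (C * D) := by
          apply one_div_lt_one_div_of_lt (by positivity)
          have : 0 < C * D := by positivity
          linarith
      _ ≤ _ := one_div_le_one_div_of_le hpos hHb

end

end Pool.Agent.Lib.MP_04276e_nt
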